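import Pool.Agent.Helper63.RP4.T4
import Pool.Agent.Helper63.RP4.Fin

/-!
GH (half planes), A1.  Conditional means over the height functions in a finite domain.
-/

open Finset

namespace GH

open RP4

open Classical in
/-- the height functions of `Om D` which agree with `g` on `A` -/
noncomputable def agr (A : V → Prop) (D : Finset V) (g : V → ℤ) : Finset (V → ℤ) :=
  (Om D).filter (fun h => ∀ v, A v → h v = g v)

/-- conditional mean of `F` given the heights on `A` -/
noncomputable def cm (A : V → Prop) (D : Finset V) (F : (V → ℤ) → ℝ) (g : V → ℤ) : ℝ :=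
  avg (agr A D g) F

variable {A : V → Prop} {D : Finset V}

lemma mem_agr {g h : V → ℤ} : h ∈ agr A D g ↔ h ∈ Om D ∧ ∀ v, A v → h v = g v := by
  classical
  unfold agr
  rw [Finset.mem_filter]

lemma agr_congr {g g' : V → ℤ} (h : ∀ v, A v → g v = g' v) : agr A D g = agr A D g' := by
  ext k
  rw [mem_agr, mem_agr]
  refine and_congr_right fun _ => forall_congr' fun v => forall_congr' fun hv => ?_
  rw [h v hv]

lemma agr_set {B : V → Prop} (h : ∀ v, A v ↔ B v) (g : V → ℤ) : agr A D g = agr B D g := by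
  have : A = B := funext fun v => propext (h v)
  rw [this]

lemma cm_set {B : V → Prop} (h : ∀ v, A v ↔ B v) (F : (V → ℤ) → ℝ) (g : V → ℤ) :
    cm A D F g = cm B D F g := by
  unfold cm
  rw [agr_set h]

lemma cm_eq {g g' : V → ℤ} (h : ∀ v, A v → g v = g' v) (F : (V → ℤ) → ℝ) : cm A D F g = cm A D F g' := by
  unfold cm
  rw [agr_congr h]

lemma cm_add (F G : (V → ℤ) → ℝ) (g : V → ℤ) : cm A D (fun h => F h + G h) g = cm A D F g + cm A D G g :=
  avg_add _ F G

lemma cm_smul (c : ℝ) (F : (V → ℤ) → ℝ) (g : V → ℤ) : cm A D (fun h => c * F h) g = c * cm A D F g :=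
  avg_const_mul _ c F

lemma cm_congr {F G : (V → ℤ) → ℝ} (h : ∀ k ∈ Om D, F k = G k) (g : V → ℤ) : cm A D F g = cm A D G g := by
  unfold cm avg
  rw [Finset.sum_congr rfl fun k hk => h k (mem_agr.1 hk).1]

lemma self_agr {g : V → ℤ} (hg : g ∈ Om D) : g ∈ agr A D g := mem_agr.2 ⟨hg, fun _ _ => rfl⟩

/-- functions of the heights on `A` are their own conditional means -/
lemma cm_of_low {F : (V → ℤ) → ℝ} {g : V → ℤ} (hg : g ∈ Om D)
    (hF : ∀ h ∈ Om D, (∀ v, A v → h v = g v) → F h = F g) : cm A D F g = F g := by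
  have h1 : (0 : ℝ) < (agr A D g).card := by exact_mod_cast Finset.card_pos.2 ⟨g, self_agr hg⟩
  unfold cm avg
  rw [Finset.sum_congr rfl fun k hk => hF k (mem_agr.1 hk).1 (mem_agr.1 hk).2, Finset.sum_const,
    nsmul_eq_mul]
  field_simp

end GH
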