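import Pool.Agent.Helper34.GH.A1

/-!
GH (half planes), A2.  Tower property and Jensen's inequality.
-/

open Finset

namespace GH

open RP4

variable {A : V → Prop} {D : Finset V}

/-
`∑_g G g (∑_{h ~ g} F h) / n g`, where `g ~ h` means equality on `A` (symmetric), `n g = #(agr g)`; for `g ~ h` one has `n g = n h` (`agr_congr`) and `G g = G h`.
Write the inner sum over `Om D` with an indicator (`Finset.sum_filter`), exchange the sums: `∑_h G h F h (∑_{g ~ h} 1 / n h) = ∑_h G h F h`.
-/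
theorem cm_tower (F G : (V → ℤ) → ℝ)
    (hG : ∀ g ∈ Om D, ∀ g' ∈ Om D, (∀ v, A v → g v = g' v) → G g = G g') :
    avg (Om D) (fun g => G g * cm A D F g) = avg (Om D) (fun g => G g * F g) := by
  classical
  have e1 : ∀ g ∈ Om D, G g * cm A D F g =
      ∑ h ∈ Om D, if (∀ v, A v → h v = g v) then G h * F h / ((agr A D h).card : ℝ) else 0 := by
    intro g hg
    have hf : (Om D).filter (fun h => ∀ v, A v → h v = g v) = agr A D g := by
      ext h
      rw [mem_agr, Finset.mem_filter]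
    rw [← Finset.sum_filter, hf]
    unfold cm avg
    rw [Finset.sum_div, Finset.mul_sum]
    apply Finset.sum_congr rfl
    intro h hh
    obtain ⟨hh1, hh2⟩ := mem_agr.1 hh
    rw [agr_congr (A := A) (D := D) hh2, hG h hh1 g hg hh2]
    ring
  have e2 : ∑ g ∈ Om D, G g * cm A D F g = ∑ g ∈ Om D, G g * F g := by
    rw [Finset.sum_congr rfl e1, Finset.sum_comm]
    apply Finset.sum_congr rfl
    intro h hh
    have hf : (Om D).filter (fun g => ∀ v, A v → h v = g v) = agr A D h := by
      ext g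
      rw [mem_agr, Finset.mem_filter]
      exact and_congr_right fun _ => forall_congr' fun v => forall_congr' fun _ => eq_comm
    have h1 : (0 : ℝ) < ((agr A D h).card : ℝ) := by exact_mod_cast Finset.card_pos.2 ⟨h, self_agr hh⟩
    rw [← Finset.sum_filter, hf, Finset.sum_const, nsmul_eq_mul]
    field_simp
  unfold avg
  rw [e2]

theorem cm_mean (F : (V → ℤ) → ℝ) : avg (Om D) (cm A D F) = avg (Om D) F := by
  have h := cm_tower (A := A) (D := D) F (fun _ => 1) (fun _ _ _ _ _ => rfl)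
  simpa using h

/-
Pointwise `|cm F g| ^ k ≤ cm (|F| ^ k) g` for `g ∈ Om D` (`Real.pow_arith_mean_le_arith_mean_pow` with the weights `1 / n`, `n = #(agr g) > 0`, after
`|∑| ≤ ∑ |.|`), then `cm_mean`.
-/
theorem cm_jensen (F : (V → ℤ) → ℝ) (k : ℕ) :
    avg (Om D) (fun g => |cm A D F g| ^ k) ≤ avg (Om D) (fun g => |F g| ^ k) := by
  classical
  rw [← cm_mean (A := A) (D := D) (fun g => |F g| ^ k)]
  have key : ∀ g ∈ Om D, |cm A D F g| ^ k ≤ cm A D (fun g => |F g| ^ k) g := by
    intro g hg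
    have hn : (0 : ℝ) < ((agr A D g).card : ℝ) := by
      exact_mod_cast Finset.card_pos.2 ⟨g, self_agr hg⟩
    have h1 : |cm A D F g| ≤ ∑ h ∈ agr A D g, ((agr A D g).card : ℝ)⁻¹ * |F h| := by
      unfold cm avg
      rw [abs_div, abs_of_pos hn, div_eq_inv_mul, ← Finset.mul_sum]
      exact mul_le_mul_of_nonneg_left (Finset.abs_sum_le_sum_abs _ _) (inv_nonneg.2 hn.le)
    have h2 : (∑ h ∈ agr A D g, ((agr A D g).card : ℝ)⁻¹ * |F h|) ^ k ≤
        ∑ h ∈ agr A D g, ((agr A D g).card : ℝ)⁻¹ * |F h| ^ k := by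
      refine Real.pow_arith_mean_le_arith_mean_pow _ (fun _ => ((agr A D g).card : ℝ)⁻¹)
        (fun h => |F h|) (fun _ _ => inv_nonneg.2 hn.le) ?_ (fun _ _ => abs_nonneg _) k
      rw [Finset.sum_const, nsmul_eq_mul, mul_inv_cancel₀ hn.ne']
    refine (pow_le_pow_left₀ (abs_nonneg _) h1 k).trans (h2.trans (le_of_eq ?_))
    unfold cm avg
    rw [← Finset.mul_sum, div_eq_inv_mul]
  unfold avg at key ⊢
  exact div_le_div_of_nonneg_right (Finset.sum_le_sum key) (Nat.cast_nonneg _)

end GH
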