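import Pool.Agent.Helper34.GH.A2

/-!
GH (half planes), A3.  Reflections, the Markov property and the identity of reflection positivity.
-/

open Finset

namespace GH

open RP4

variable {D : Finset V} {θ : V → V} {H : V → Prop}

private lemma A3_bdry (hR : ReflD θ H) (hD : ∀ v, v ∈ D ↔ θ v ∈ D) {v : V} (hv : v ∈ bdry D) :
    θ v ∈ bdry D := by
  rw [mem_bdry] at hv ⊢
  obtain ⟨h1, u, h2, h3⟩ := hv
  exact ⟨(hD v).1 h1, θ u, (hR.adj u v).2 h2, fun h => h3 ((hD u).2 h)⟩

/-- `ReflD.adj`, `ReflD.par`; the boundary of `D` is symmetric (compare the private lemmas `T4_bdry`, `T4_comp` in Helper63/RP4/T4.lean) -/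
theorem om_refl (hR : ReflD θ H) (hD : ∀ v, v ∈ D ↔ θ v ∈ D) {h : V → ℤ} (hh : h ∈ Om D) :
    (fun v => h (θ v)) ∈ Om D := by
  rw [mem_Om] at hh ⊢
  obtain ⟨h1, h2⟩ := hh
  refine ⟨⟨fun v hv => h1.off _ fun h => hv ((hD v).2 h), fun v hv => ?_,
    fun u hu v hv huv => ?_⟩, fun v hv => h2 _ (A3_bdry hR hD hv)⟩
  · have h3 := h1.par _ ((hD v).1 hv)
    have h4 := hR.par v
    rw [Int.even_iff] at h3 h4 ⊢
    omega
  · exact h1.step _ ((hD u).1 hu) _ ((hD v).1 hv) ((hR.adj u v).2 huv)

/-- `h ↦ h ∘ θ` is an involution of `Om D` (`Finset.sum_nbij'`) -/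
theorem avg_refl (hR : ReflD θ H) (hD : ∀ v, v ∈ D ↔ θ v ∈ D) (F : (V → ℤ) → ℝ) :
    avg (Om D) (fun h => F (fun v => h (θ v))) = avg (Om D) F := by
  unfold avg
  have h1 : ∑ h ∈ Om D, F (fun v => h (θ v)) = ∑ h ∈ Om D, F h := by
    refine Finset.sum_nbij' (fun h v => h (θ v)) (fun h v => h (θ v))
      (fun h hh => om_refl hR hD hh) (fun h hh => om_refl hR hD hh) (fun h _ => ?_)
      (fun h _ => ?_) (fun h _ => rfl)
    · funext v
      show h (θ (θ v)) = h v
      rw [hR.inv v]
    · funext v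
      show h (θ (θ v)) = h v
      rw [hR.inv v]
  rw [h1]

/-
Markov property. `P v := H v ∧ H (θ v)` is the line. Let `g, g' ∈ Om D` agree on the line. The map `h ↦ h'`, `h' v = h v` if `H v`, `h' v = g' v` otherwise, is a bijection of
`{h ∈ Om D, h = g on H ∘ θ}` onto `{h ∈ Om D, h = g' on H ∘ θ}` (inverse: the same with `g`).  `h' ∈ Om D`: `off`, `par` pointwise; `step` by `ReflD.edge`: an edge lies in
`H`, where `h' = h`, or in `H ∘ θ`, where `h' = g'` (on the line `h = g = g'`); zero boundary values pointwise. `F h' = F h` by `hF`.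
-/
theorem cm_markov (hR : ReflD θ H) {F : (V → ℤ) → ℝ}
    (hF : ∀ g ∈ Om D, ∀ g' ∈ Om D, (∀ v, H v → g v = g' v) → F g = F g') {g g' : V → ℤ} (hg : g ∈ Om D) (hg' : g' ∈ Om D)
    (h : ∀ v, H v → H (θ v) → g v = g' v) :
    cm (fun v => H (θ v)) D F g = cm (fun v => H (θ v)) D F g' := by
  classical
  have key : ∀ g ∈ Om D, ∀ g' ∈ Om D, (∀ v, H v → H (θ v) → g v = g' v) →
      ∀ k ∈ agr (fun v => H (θ v)) D g,
        (fun v => if H v then k v else g' v) ∈ agr (fun v => H (θ v)) D g' := by
    intro g hg g' hg' h k hk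
    obtain ⟨hk1, hk2⟩ := mem_agr.1 hk
    have hx : ∀ w, H (θ w) → (if H w then k w else g' w) = g' w := by
      intro w hw
      split_ifs with h1
      · rw [hk2 w hw, h w h1 hw]
      · rfl
    have hy : ∀ w, H w → (if H w then k w else g' w) = k w := by
      intro w hw
      rw [if_pos hw]
    have hc : ∀ w, (if H w then k w else g' w) = k w ∨ (if H w then k w else g' w) = g' w := by
      intro w
      split_ifs
      · exact Or.inl rfl
      · exact Or.inr rfl
    refine mem_agr.2 ⟨?_, fun v hv => hx v hv⟩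
    rw [mem_Om] at hk1 hg' ⊢
    obtain ⟨u1, u2⟩ := hk1
    obtain ⟨v1, v2⟩ := hg'
    refine ⟨⟨fun w hw => ?_, fun w hw => ?_, fun a ha b hb hab => ?_⟩, fun w hw => ?_⟩
    · show (if H w then k w else g' w) = 0
      rcases hc w with h | h <;> rw [h]
      · exact u1.off w hw
      · exact v1.off w hw
    · show Even ((if H w then k w else g' w) - RP4.par w - 0)
      rcases hc w with h | h <;> rw [h]
      · exact u1.par w hw
      · exact v1.par w hw
    · show |(if H a then k a else g' a) - (if H b then k b else g' b)| = 1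
      rcases hR.edge a b hab with ⟨h1, h2⟩ | ⟨h1, h2⟩
      · rw [hy a h1, hy b h2]
        exact u1.step a ha b hb hab
      · rw [hx a h1, hx b h2]
        exact v1.step a ha b hb hab
    · show (if H w then k w else g' w) = _
      rcases hc w with h | h <;> rw [h]
      · exact u2 w hw
      · exact v2 w hw
  have inv : ∀ g g' : V → ℤ, ∀ k ∈ agr (fun v => H (θ v)) D g,
      (fun v => if H v then (fun v => if H v then k v else g' v) v else g v) = k := by
    intro g g' k hk
    obtain ⟨_, hk2⟩ := mem_agr.1 hk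
    funext v
    by_cases h1 : H v
    · simp only [if_pos h1]
    · rw [if_neg h1]
      exact (hk2 v ((hR.cover v).resolve_left h1)).symm
  have h' : ∀ v, H v → H (θ v) → g' v = g v := fun v h1 h2 => (h v h1 h2).symm
  unfold cm avg
  have hs : ∑ k ∈ agr (fun v => H (θ v)) D g, F k = ∑ k ∈ agr (fun v => H (θ v)) D g', F k := by
    refine Finset.sum_nbij' (fun k v => if H v then k v else g' v)
      (fun k v => if H v then k v else g v) (key g hg g' hg' h) (key g' hg' g hg h')
      (fun k hk => inv g g' k hk) (fun k hk => inv g' g k hk) ?_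
    intro k hk
    have h1 := key g hg g' hg' h k hk
    refine hF k (mem_agr.1 hk).1 _ (mem_agr.1 h1).1 fun v hv => ?_
    show k v = if H v then k v else g' v
    rw [if_pos hv]
  have hcard : (agr (fun v => H (θ v)) D g).card = (agr (fun v => H (θ v)) D g').card :=
    Finset.card_nbij' (fun k v => if H v then k v else g' v)
      (fun k v => if H v then k v else g v) (key g hg g' hg' h) (key g' hg' g hg h')
      (fun k hk => inv g g' k hk) (fun k hk => inv g' g k hk)
  rw [hs, hcard]

/-
`avg (F * F∘θ) = avg (cm F * F∘θ)` (`cm_tower` with `G = F ∘ θ`, which depends on the heights on `H ∘ θ` only: `ReflD.inv`, `om_refl`) `= avg (cm F ∘ θ * F)` (`avg_refl`)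
`= avg (cm F * F)` (`cm_markov`: `g ∘ θ` agrees with `g` on the line, `ReflD.fix`) `= avg (cm F * cm F)` (`cm_tower` with `G = cm F`, `cm_eq`).
-/
theorem cm_rp (hR : ReflD θ H) (hD : ∀ v, v ∈ D ↔ θ v ∈ D) {F : (V → ℤ) → ℝ}
    (hF : ∀ g ∈ Om D, ∀ g' ∈ Om D, (∀ v, H v → g v = g' v) → F g = F g') :
    avg (Om D) (fun g => cm (fun v => H (θ v)) D F g ^ 2) = avg (Om D) (fun h => F h * F (fun v => h (θ v))) := by
  have hcongr : ∀ {F G : (V → ℤ) → ℝ}, (∀ g ∈ Om D, F g = G g) → avg (Om D) F = avg (Om D) G := by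
    intro F G h
    unfold avg
    rw [Finset.sum_congr rfl h]
  -- the conditional mean depends on the heights on `H ∘ θ` only
  have hcm : ∀ g ∈ Om D, ∀ g' ∈ Om D, (∀ v, H (θ v) → g v = g' v) →
      cm (fun v => H (θ v)) D F g = cm (fun v => H (θ v)) D F g' :=
    fun g _ g' _ h => cm_eq h F
  have h1 : avg (Om D) (fun h => F h * F (fun v => h (θ v))) =
      avg (Om D) (fun g => F (fun v => g (θ v)) * cm (fun v => H (θ v)) D F g) := by
    rw [cm_tower (A := fun v => H (θ v)) F (fun g => F (fun v => g (θ v)))]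
    · exact hcongr fun g _ => mul_comm _ _
    · intro g hg g' hg' h
      refine hF _ (om_refl hR hD hg) _ (om_refl hR hD hg') fun v hv => ?_
      refine h (θ v) ?_
      rw [hR.inv v]
      exact hv
  have h2 : avg (Om D) (fun g => F (fun v => g (θ v)) * cm (fun v => H (θ v)) D F g) =
      avg (Om D) (fun g => F g * cm (fun v => H (θ v)) D F (fun v => g (θ v))) := by
    rw [← avg_refl hR hD (fun g => F g * cm (fun v => H (θ v)) D F (fun v => g (θ v)))]
    refine hcongr fun g _ => ?_
    have : (fun v => (fun w => g (θ w)) (θ v)) = g := by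
      funext v
      show g (θ (θ v)) = g v
      rw [hR.inv v]
    show F (fun v => g (θ v)) * cm (fun v => H (θ v)) D F g =
      F (fun v => g (θ v)) * cm (fun v => H (θ v)) D F (fun v => (fun w => g (θ w)) (θ v))
    rw [this]
  have h3 : avg (Om D) (fun g => F g * cm (fun v => H (θ v)) D F (fun v => g (θ v))) =
      avg (Om D) (fun g => cm (fun v => H (θ v)) D F g * F g) := by
    refine hcongr fun g hg => ?_
    rw [cm_markov hR hF hg (om_refl hR hD hg) fun v hv hv' => by rw [hR.fix v hv hv'], mul_comm]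
  rw [h1, h2, h3, ← cm_tower (A := fun v => H (θ v)) F _ hcm]
  exact hcongr fun g _ => pow_two _

end GH
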