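import Pool.Agent.Helper34.GH.A3
import Pool.Agent.Helper75.GF.L3a
import Pool.Agent.Helper75.GF.L1

/-!
GH (half planes), B1.  Symmetric domains, conditional expectation and reflection of observables.
-/

open MeasureTheory Filter Topology

namespace GF.Lat

open RP4 (V avg Om dom)

/-- domains which are symmetric under the reflection in the line `ld d x = 0` -/
def symd (d : ℤ × ℤ) : Set (Finset V) := {D | ∀ v, v ∈ D ↔ lref d 0 v ∈ D}

/-- the iterated filter of symmetric domains -/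
noncomputable def sitf (d : ℤ × ℤ) : Filter (ℝ × Finset V) := (𝓝[>] (0 : ℝ)).curry (dom ⊓ 𝓟 (symd d))

/-- conditional expectation given the heights on the closed half plane `ld d v ≤ 0` -/
noncomputable def Cd (d : ℤ × ℤ) (A : Ix → ℝ) : Ix → ℝ := fun i =>
  GH.cm (fun v => ld d v ≤ 0) i.1.2 (fun h => A (i.1, h)) i.2

/-- reflected observable -/
noncomputable def Th (d : ℤ × ℤ) (A : Ix → ℝ) : Ix → ℝ := fun i => A (i.1, fun v => i.2 (lref d 0 v))

/-- dependence on the heights in the closed half plane `0 ≤ ld d v` only -/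
def UppAt (d : ℤ × ℤ) (p : ℝ × Finset V) (A : Ix → ℝ) : Prop :=
  ∀ g ∈ Om p.2, ∀ g' ∈ Om p.2, (∀ v, 0 ≤ ld d v → g v = g' v) → A (p, g) = A (p, g')

/-- dependence on the heights in the closed half plane `ld d v ≤ 0` only -/
def LowAt (d : ℤ × ℤ) (p : ℝ × Finset V) (A : Ix → ℝ) : Prop :=
  ∀ g ∈ Om p.2, ∀ g' ∈ Om p.2, (∀ v, ld d v ≤ 0 → g v = g' v) → A (p, g) = A (p, g')

lemma sitf_le (d : ℤ × ℤ) : sitf d ≤ itf := by
  intro S hS
  unfold itf at hS
  unfold sitf
  rw [mem_curry_iff] at hS ⊢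
  exact hS.mono fun δ h => h.filter_mono inf_le_left

lemma sitf_sym (d : ℤ × ℤ) : ∀ᶠ p in sitf d, p.2 ∈ symd d := by
  unfold sitf
  rw [eventually_curry_iff]
  exact Eventually.of_forall fun δ => mem_inf_of_right (mem_principal_self _)

lemma itf_pos : ∀ᶠ p in itf, 0 < p.1 := by
  rw [itf_eventually]
  filter_upwards [self_mem_nhdsWithin] with δ hδ
  exact Eventually.of_forall fun _ => hδ

private lemma B1_cases {d : ℤ × ℤ} (hd : DirZ d) :
    (∀ v, lref d 0 v = (-v.1, v.2)) ∨ (∀ v, lref d 0 v = (v.1, -v.2)) ∨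
      (∀ v, lref d 0 v = (-v.2, -v.1)) ∨ (∀ v, lref d 0 v = (v.2, v.1)) := by
  rcases hd with rfl | rfl | rfl | rfl | rfl | rfl | rfl | rfl
  · refine Or.inl fun v => ?_
    ext <;> simp [lref, ld] <;> omega
  · refine Or.inl fun v => ?_
    ext <;> simp [lref, ld] <;> omega
  · refine Or.inr (Or.inl fun v => ?_)
    ext <;> simp [lref, ld] <;> omega
  · refine Or.inr (Or.inl fun v => ?_)
    ext <;> simp [lref, ld] <;> omega
  · refine Or.inr (Or.inr (Or.inl fun v => ?_))
    ext <;> simp [lref, ld]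
  · refine Or.inr (Or.inr (Or.inl fun v => ?_))
    ext <;> simp [lref, ld]
  · refine Or.inr (Or.inr (Or.inr fun v => ?_))
    ext <;> simp [lref, ld]
  · refine Or.inr (Or.inr (Or.inr fun v => ?_))
    ext <;> simp [lref, ld]

private lemma B1_ld {d : ℤ × ℤ} (hd : DirZ d) (v : V) : ld d (lref d 0 v) = -ld d v := by
  rw [ld_lref hd]
  ring

private lemma B1_step {d : ℤ × ℤ} (hd : DirZ d) {u v : V} (h : RP4.Adj u v) :
    |ld d u - ld d v| ≤ 1 := by
  have h1 : |d.1| ≤ 1 ∧ |d.2| ≤ 1 := by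
    rcases hd with rfl | rfl | rfl | rfl | rfl | rfl | rfl | rfl <;> norm_num
  have h2 : ld d u - ld d v = d.1 * (u.1 - v.1) + d.2 * (u.2 - v.2) := by
    unfold ld
    ring
  unfold RP4.Adj at h
  rw [h2, ← h]
  refine (abs_add_le _ _).trans ?_
  rw [abs_mul, abs_mul]
  have h3 := abs_nonneg (u.1 - v.1)
  have h4 := abs_nonneg (u.2 - v.2)
  have h5 : |d.1| * |u.1 - v.1| ≤ 1 * |u.1 - v.1| := mul_le_mul_of_nonneg_right h1.1 h3
  have h6 : |d.2| * |u.2 - v.2| ≤ 1 * |u.2 - v.2| := mul_le_mul_of_nonneg_right h1.2 h4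
  linarith

/-- case by case for the eight directions; `lref_lref`, `ld_lref`, `lref_fix`; for an edge `|ld d u - ld d v| ≤ 1` -/
theorem reflD_lref {d : ℤ × ℤ} (hd : DirZ d) : RP4.ReflD (lref d 0) (fun v => 0 ≤ ld d v) := by
  refine ⟨fun v => lref_lref hd 0 v, ?_, ?_, ?_, ?_, ?_⟩
  · intro u v
    unfold RP4.Adj
    have h1 : ∀ a b : ℤ, |-a - -b| = |a - b| := fun a b => by
      rw [neg_sub_neg, abs_sub_comm]
    rcases B1_cases hd with h | h | h | h
    · rw [h u, h v]
      simp only [h1]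
    · rw [h u, h v]
      simp only [h1]
    · rw [h u, h v]
      simp only [h1]
      rw [add_comm]
    · rw [h u, h v]
      simp only
      rw [add_comm]
  · intro v
    unfold RP4.par
    rcases B1_cases hd with h | h | h | h
    · rw [h v]
      exact ⟨-v.1, by simp only; ring⟩
    · rw [h v]
      exact ⟨-v.2, by simp only; ring⟩
    · rw [h v]
      exact ⟨-v.1 - v.2, by simp only; ring⟩
    · rw [h v]
      exact ⟨0, by simp only; ring⟩
  · intro v
    rw [B1_ld hd]
    omega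
  · intro v hv hv'
    rw [B1_ld hd] at hv'
    exact lref_fix hd (by omega)
  · intro u v huv
    rw [B1_ld hd, B1_ld hd]
    have h := abs_le.1 (B1_step hd huv)
    omega

end GF.Lat
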