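import Pool.Agent.Helper34.GH.B1

/-!
GH (half planes), B2.  Properties of the conditional expectation of observables, at a fixed scale and domain.
-/

open MeasureTheory Filter Topology

namespace GF.Lat

open RP4 (V avg Om dom)

variable {d : ℤ × ℤ} {p : ℝ × Finset V}

lemma Cd_add (A B : Ix → ℝ) (i : Ix) : Cd d (fun i => A i + B i) i = Cd d A i + Cd d B i :=
  GH.cm_add _ _ _

lemma Cd_smul (c : ℝ) (A : Ix → ℝ) (i : Ix) : Cd d (fun i => c * A i) i = c * Cd d A i :=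
  GH.cm_smul _ _ _

lemma Cd_low {A : Ix → ℝ} (hA : LowAt d p A) {g : V → ℤ} (hg : g ∈ Om p.2) : Cd d A (p, g) = A (p, g) :=
  GH.cm_of_low hg fun h hh hv => hA h hh g hg hv

lemma ev_Cd (A : Ix → ℝ) : ev p (Cd d A) = ev p A := by
  unfold ev Cd
  exact GH.cm_mean (A := fun v => ld d v ≤ 0) (D := p.2) (fun h => A (p, h))

lemma lowAt_Cd (A : Ix → ℝ) : LowAt d p (Cd d A) := fun _ _ _ _ h => GH.cm_eq h _

/-- `GH.cm_tower` -/
lemma ev_mul_Cd {B : Ix → ℝ} (hB : LowAt d p B) (A : Ix → ℝ) :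
    ev p (fun i => B i * Cd d A i) = ev p (fun i => B i * A i) := by
  unfold ev Cd
  exact GH.cm_tower (A := fun v => ld d v ≤ 0) (D := p.2) (fun h => A (p, h)) (fun h => B (p, h)) hB

lemma ev_Cd_pow (A : Ix → ℝ) (k : ℕ) : ev p (fun i => |Cd d A i| ^ k) ≤ ev p (fun i => |A i| ^ k) := by
  unfold ev Cd
  exact GH.cm_jensen (A := fun v => ld d v ≤ 0) (D := p.2) (fun h => A (p, h)) k

lemma Cd_ok {U : Filter (ℝ × Finset V)} {A : Ix → ℝ} (hA : OkU U A) : OkU U (Cd d A) := by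
  intro k
  obtain ⟨C, hC⟩ := hA k
  exact ⟨C, hC.mono fun p hp => (ev_Cd_pow A k).trans hp⟩

/-- reflected observables have the same mean in a symmetric domain (`GH.avg_refl`) -/
theorem ev_Th (hd : DirZ d) (hp : p.2 ∈ symd d) (A : Ix → ℝ) : ev p (Th d A) = ev p A := by
  unfold ev Th
  exact GH.avg_refl (D := p.2) (reflD_lref hd) hp (fun h => A (p, h))

lemma Th_ok (hd : DirZ d) {U : Filter (ℝ × Finset V)} (hU : U ≤ sitf d) {A : Ix → ℝ} (hA : OkU U A) :
    OkU U (Th d A) := by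
  intro k
  obtain ⟨C, hC⟩ := hA k
  refine ⟨C, ?_⟩
  filter_upwards [hC, hU (sitf_sym d)] with p hp hs
  exact (ev_Th hd hs (fun i => |A i| ^ k)).le.trans hp

/-- `GH.cm_markov` and `GH.cm_set` (`0 ≤ ld d (lref d 0 v) ↔ ld d v ≤ 0`, `ld_lref`): the conditional mean of a function of the upper half plane
depends on the heights on the line only -/
theorem Cd_line (hd : DirZ d) {A : Ix → ℝ} (hA : UppAt d p A) {g g' : V → ℤ} (hg : g ∈ Om p.2) (hg' : g' ∈ Om p.2)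
    (h : ∀ v, ld d v = 0 → g v = g' v) : Cd d A (p, g) = Cd d A (p, g') := by
  have e : ∀ v, ld d v ≤ 0 ↔ 0 ≤ ld d (lref d 0 v) := by
    intro v
    rw [ld_lref hd]
    constructor <;> intro h1 <;> omega
  have key := GH.cm_markov (D := p.2) (H := fun v => 0 ≤ ld d v) (reflD_lref hd)
    (F := fun k => A (p, k)) (fun k hk k' hk' hv => hA k hk k' hk' hv) hg hg'
    (fun v h1 h2 => h v (le_antisymm ((e v).2 h2) h1))
  unfold Cd
  rw [GH.cm_set e, GH.cm_set e]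
  exact key

lemma uppAt_Cd (hd : DirZ d) {A : Ix → ℝ} (hA : UppAt d p A) : UppAt d p (Cd d A) :=
  fun _ hg _ hg' h => Cd_line hd hA hg hg' fun v hv => h v hv.ge

/-- `Cd_line`, `lref_fix`, `GH.om_refl` -/
theorem Th_Cd (hd : DirZ d) (hp : p.2 ∈ symd d) {A : Ix → ℝ} (hA : UppAt d p A) {g : V → ℤ} (hg : g ∈ Om p.2) :
    Th d (Cd d A) (p, g) = Cd d A (p, g) := by
  refine Cd_line hd hA (GH.om_refl (reflD_lref hd) hp hg) hg fun v hv => ?_
  show g (lref d 0 v) = g v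
  rw [lref_fix hd hv]

/-- `GH.cm_rp` and `GH.cm_set` -/
theorem ev_Cd_sq (hd : DirZ d) (hp : p.2 ∈ symd d) {A : Ix → ℝ} (hA : UppAt d p A) :
    ev p (fun i => Cd d A i ^ 2) = ev p (fun i => A i * Th d A i) := by
  have h := GH.cm_rp (D := p.2) (reflD_lref hd) hp (F := fun h => A (p, h)) hA
  have hs : ∀ v : V, (0 ≤ ld d (lref d 0 v)) ↔ ld d v ≤ 0 := by
    intro v
    rw [ld_lref hd]
    constructor <;> intro h <;> linarith
  have e : ev p (fun i => Cd d A i ^ 2) =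
      avg (Om p.2) (fun g => GH.cm (fun v => 0 ≤ ld d (lref d 0 v)) p.2 (fun h => A (p, h)) g ^ 2) := by
    unfold ev Cd
    congr 1
    funext g
    rw [GH.cm_set hs]
  rw [e, h]
  rfl

/-
`ev (A - Cd A)² = ev A² - 2 ev (Cd A * A) + ev (Cd A)²`, `ev (Cd A * A) = ev (Cd A * Cd A)` (`ev_mul_Cd`, `lowAt_Cd`), so it is `ev A² - ev (Cd A)² = ev A² - ev (A * Th A)`, and
`ev (A - Th A)² = ev A² - 2 ev (A * Th A) + ev (Th A)²` with `ev (Th A)² = ev A²` (`ev_Th` for `A²`).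
-/
theorem ev_sub_Cd (hd : DirZ d) (hp : p.2 ∈ symd d) {A : Ix → ℝ} (hA : UppAt d p A) :
    ev p (fun i => (A i - Cd d A i) ^ 2) = 1 / 2 * ev p (fun i => (A i - Th d A i) ^ 2) := by
  have h1 : ev p (fun i => Cd d A i * Cd d A i) = ev p (fun i => Cd d A i * A i) := ev_mul_Cd (lowAt_Cd A) A
  have h2 : ev p (fun i => Cd d A i ^ 2) = ev p (fun i => A i * Th d A i) := ev_Cd_sq hd hp hA
  have h3 : ev p (fun i => Th d A i ^ 2) = ev p (fun i => A i ^ 2) := ev_Th hd hp (fun i => A i ^ 2)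
  have h4 : ev p (fun i => Cd d A i * Cd d A i) = ev p (fun i => Cd d A i ^ 2) :=
    ev_congr p fun g _ => (sq _).symm
  have e : ∀ B : Ix → ℝ, ev p (fun i => (A i - B i) ^ 2) =
      ev p (fun i => A i ^ 2) + (-2) * ev p (fun i => B i * A i) + ev p (fun i => B i ^ 2) := by
    intro B
    rw [← ev_smul, ← ev_add, ← ev_add]
    exact ev_congr p fun g _ => by ring
  have h5 : ev p (fun i => Th d A i * A i) = ev p (fun i => A i * Th d A i) :=
    ev_congr p fun g _ => mul_comm _ _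
  rw [e, e, h3, h5, ← h1, h4, h2]
  ring

end GF.Lat
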