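import Pool.Agent.Helper34.GH.B2
import Pool.Agent.Helper34.GF.F5

/-!
GH (half planes), C1.  The pairings: linearity, dependence on a half plane, reflection.
-/

open MeasureTheory Filter Topology

namespace GF.Lat

open RP4 (V avg Om dom wt)

variable {d : ℤ × ℤ} {p : ℝ × Finset V}

lemma YY_add (f g : Pl → ℝ) (i : Ix) : YY (fun z => f z + g z) i = YY f i + YY g i := by
  unfold YY
  rw [← Finset.sum_add_distrib]
  refine Finset.sum_congr rfl fun x _ => ?_
  unfold wt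
  ring

lemma YY_smul (c : ℝ) (f : Pl → ℝ) (i : Ix) : YY (fun z => c * f z) i = c * YY f i := by
  unfold YY
  rw [Finset.mul_sum]
  refine Finset.sum_congr rfl fun x _ => ?_
  unfold wt
  ring

private lemma C1_ell (d : ℤ × ℤ) (δ : ℝ) (x : V) : ell (dr d) (δ * (x.1 : ℝ), δ * (x.2 : ℝ)) = δ * (ld d x : ℝ) := by
  simp only [ell, dr, ld]
  push_cast
  ring

private lemma C1_ld_zero (d : ℤ × ℤ) : ld d (0 : V) = 0 := by
  simp [ld]

/-- `ell (dr d) (δ x) = δ * ld d x`, so `f (δ x) ≠ 0` gives `0 < ld d x`; and `ld d 0 = 0` -/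
theorem YY_upp {f : Pl → ℝ} (hf : tsupport f ⊆ {z | 0 < ell (dr d) z}) (hp : 0 < p.1) : UppAt d p (YY f) := by
  intro g _ g' _ h
  unfold YY
  refine Finset.sum_congr rfl fun x _ => ?_
  change wt p.1 f x * ((g x : ℝ) - g 0) = wt p.1 f x * ((g' x : ℝ) - g' 0)
  by_cases h0 : f (p.1 * (x.1 : ℝ), p.1 * (x.2 : ℝ)) = 0
  · unfold wt
    rw [h0]
    ring
  · have h1 : 0 < ell (dr d) (p.1 * (x.1 : ℝ), p.1 * (x.2 : ℝ)) := hf (subset_tsupport f (Function.mem_support.2 h0))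
    rw [C1_ell] at h1
    have h2 : 0 ≤ ld d x := by
      have h3 : (0 : ℝ) < (ld d x : ℝ) := pos_of_mul_pos_right h1 hp.le
      exact_mod_cast h3.le
    rw [h x h2, h 0 (C1_ld_zero d).ge]

theorem YY_low {f : Pl → ℝ} (hf : tsupport f ⊆ {z | ell (dr d) z < 0}) (hp : 0 < p.1) : LowAt d p (YY f) := by
  intro g _ g' _ h
  unfold YY
  refine Finset.sum_congr rfl fun x _ => ?_
  change wt p.1 f x * ((g x : ℝ) - g 0) = wt p.1 f x * ((g' x : ℝ) - g' 0)
  by_cases h0 : f (p.1 * (x.1 : ℝ), p.1 * (x.2 : ℝ)) = 0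
  · unfold wt
    rw [h0]
    ring
  · have h1 : ell (dr d) (p.1 * (x.1 : ℝ), p.1 * (x.2 : ℝ)) < 0 := hf (subset_tsupport f (Function.mem_support.2 h0))
    rw [C1_ell] at h1
    have h2 : ld d x ≤ 0 := by
      by_contra hc
      have h3 : (0 : ℝ) < (ld d x : ℝ) := by exact_mod_cast not_le.1 hc
      exact absurd h1 (not_lt.2 (mul_pos hp h3).le)
    rw [h x h2, h 0 (C1_ld_zero d).le]

/-- reindex the sum over the symmetric set `p.2` by `lref d 0`; `refl_lattice` (L3a.lean) with `m = 0`, `rf f z = f (refl z)`; `lref d 0 0 = 0`.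
True for all `h`. -/
theorem Th_YY (hd : DirZ d) (hp : p.2 ∈ symd d) (f : Pl → ℝ) (h : V → ℤ) :
    Th d (YY f) (p, h) = YY (rf (dr d) 0 f) (p, h) := by
  unfold Th YY
  simp only
  have h0 : lref d 0 0 = 0 := lref_fix hd (by simp [ld])
  have hw : ∀ x : V, wt p.1 (rf (dr d) 0 f) (lref d 0 x) = wt p.1 f x := by
    intro x
    unfold wt rf
    have h1 := refl_lattice hd p.1 0 (lref d 0 x)
    rw [lref_lref hd, Int.cast_zero, mul_zero] at h1
    rw [h1]
  refine Finset.sum_nbij' (fun x => lref d 0 x) (fun x => lref d 0 x) ?_ ?_ ?_ ?_ ?_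
  · intro x hx
    exact (hp x).1 hx
  · intro x hx
    exact (hp x).1 hx
  · intro x _
    exact lref_lref hd 0 x
  · intro x _
    exact lref_lref hd 0 x
  · intro x _
    rw [hw, h0]

end GF.Lat
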