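import Pool.Agent.Helper34.GH.C1

/-!
GH (half planes), C2.  The pairings minus their conditional means.
-/

open MeasureTheory Filter Topology

namespace GF.Lat

open RP4 (V avg Om dom Deloc wt)

variable {d : ℤ × ℤ} {p : ℝ × Finset V}

/-- the pairing minus its conditional mean given the heights on the closed half plane `ld d v ≤ 0` -/
noncomputable def Yc (d : ℤ × ℤ) (f : Pl → ℝ) : Ix → ℝ := fun i => YY f i - Cd d (YY f) i

lemma Yc_add (f g : Pl → ℝ) (i : Ix) : Yc d (fun z => f z + g z) i = Yc d f i + Yc d g i := by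
  have h : YY (fun z => f z + g z) = fun i => YY f i + YY g i := funext fun i => YY_add f g i
  unfold Yc
  rw [h, Cd_add]
  ring

lemma Yc_smul (c : ℝ) (f : Pl → ℝ) (i : Ix) : Yc d (fun z => c * f z) i = c * Yc d f i := by
  have h : YY (fun z => c * f z) = fun i => c * YY f i := funext fun i => YY_smul c f i
  unfold Yc
  rw [h, Cd_smul]
  ring

/-- `YY b` depends on the lower half plane only (`YY_low`), so `Cd (YY b) = YY b` (`Cd_low`): the function `c b` does not change `Yc` -/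
theorem Yc_neutral {b : Pl → ℝ} (hb : tsupport b ⊆ {z | ell (dr d) z < 0}) (hp : 0 < p.1) (f : Pl → ℝ) (c : ℝ)
    {g : V → ℤ} (hg : g ∈ Om p.2) : Yc d (fun z => f z + c * b z) (p, g) = Yc d f (p, g) := by
  have h1 : Yc d b (p, g) = 0 := by
    unfold Yc
    rw [Cd_low (YY_low hb hp) hg, sub_self]
  rw [Yc_add f (fun z => c * b z), Yc_smul, h1, mul_zero, add_zero]

/-- a bump function in the lower half plane: `exists_bump` (Helper27/GF/Cal2.lean) -/
theorem exists_low (hd : DirZ d) : ∃ b : Pl → ℝ, Cc b ∧ tsupport b ⊆ {z | ell (dr d) z < 0} ∧ ∫ z, b z = 1 := by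
  have hc : Continuous (fun z : Pl => ell (dr d) z) := by
    unfold ell
    exact (continuous_const.mul continuous_fst).add (continuous_const.mul continuous_snd)
  obtain ⟨b, h1, -, h3, h4⟩ := exists_bump {z | ell (dr d) z < 0} (isOpen_lt hc continuous_const)
    ⟨(-(d.1 : ℝ), -(d.2 : ℝ)), by
      show (d.1 : ℝ) * -(d.1 : ℝ) + (d.2 : ℝ) * -(d.2 : ℝ) < 0
      rcases hd with rfl | rfl | rfl | rfl | rfl | rfl | rfl | rfl <;> norm_num⟩
  exact ⟨b, h1, h4, h3⟩

/-
With `b` from `exists_low`: `F = f - (∫ f) b` is neutral, `YY F` is Ok (`latFld_ok_YY`, or `YY_ok`), so `Cd (YY F)` (`Cd_ok`) and `Yc F` are Ok; `Yc f = Yc F` on `Om`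
for positive `δ` (`Yc_neutral`, `itf_pos`), `OkU.congr`.
-/
theorem Yc_ok (hdl : Deloc) (hd : DirZ d) {U : Ultrafilter (ℝ × Finset V)} (hU : (U : Filter (ℝ × Finset V)) ≤ itf)
    {f : Pl → ℝ} (hf : Cc f) : OkU (U : Filter (ℝ × Finset V)) (Yc d f) := by
  obtain ⟨b, hb, hbs, hbi⟩ := exists_low hd
  have hfi : Integrable f := hf.smooth.continuous.integrable_of_hasCompactSupport hf.supp
  have hbi' : Integrable b := hb.smooth.continuous.integrable_of_hasCompactSupport hb.supp
  have hF : Ne (fun z => f z + (-∫ z, f z) * b z) := by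
    refine ⟨⟨hf.smooth.add (contDiff_const.mul hb.smooth), hf.supp.add hb.supp.mul_left⟩, ?_⟩
    rw [integral_add hfi (hbi'.const_mul _), integral_const_mul, hbi]
    ring
  have h1 : OkU (U : Filter (ℝ × Finset V)) (YY fun z => f z + (-∫ z, f z) * b z) :=
    YY_ok hdl (logBd hdl) (Kc_two hdl) hU hF
  have h2 := Cd_ok (d := d) h1
  have h3 := h1.add ((OkU.const hU (-1)).mul h2)
  refine OkU.congr ?_ h3
  filter_upwards [itf_pos.filter_mono hU] with p hp g hg
  rw [← Yc_neutral hbs hp f (-∫ z, f z) hg]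
  unfold Yc
  ring

/-- `YY_upp`, `uppAt_Cd` -/
theorem Yc_upp (hd : DirZ d) {f : Pl → ℝ} (hf : tsupport f ⊆ {z | 0 < ell (dr d) z}) (hp : 0 < p.1) :
    UppAt d p (Yc d f) := by
  intro g hg g' hg' h
  have h1 := YY_upp hf hp g hg g' hg' h
  have h2 := uppAt_Cd hd (YY_upp hf hp) g hg g' hg' h
  unfold Yc
  rw [h1, h2]

/-- `ev sin A = 0` for odd `A` (as in `ev_odd`, L2.lean: `Om` is invariant under `h ↦ -h`, `RP4.avg_neg_Om`) -/
theorem ev_sin_odd {A : Ix → ℝ} (hA : ∀ g ∈ Om p.2, A (p, -g) = -A (p, g)) : ev p (fun i => Real.sin (A i)) = 0 := by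
  have h1 := RP4.avg_neg_Om (D := p.2) (fun h => Real.sin (A (p, h)))
  have h2 : avg (Om p.2) (fun h => Real.sin (A (p, -h))) =
      -avg (Om p.2) (fun h => Real.sin (A (p, h))) := by
    unfold avg
    rw [← neg_div, ← Finset.sum_neg_distrib]
    congr 1
    refine Finset.sum_congr rfl fun g hg => ?_
    simp only [hA g hg, Real.sin_neg]
  unfold ev
  rw [h2] at h1
  linarith

private lemma C2c_YY (f : Pl → ℝ) (g : V → ℤ) : YY f (p, -g) = -YY f (p, g) := by
  unfold YY
  rw [← Finset.sum_neg_distrib]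
  refine Finset.sum_congr rfl fun x _ => ?_
  simp only [Pi.neg_apply, Int.cast_neg]
  ring

private lemma C2c_mem {A : V → Prop} {D : Finset V} {g h : V → ℤ} (hh : h ∈ GH.agr A D g) :
    -h ∈ GH.agr A D (-g) := by
  rw [GH.mem_agr] at hh ⊢
  refine ⟨RP4.neg_mem_Zs (Finset.Subset.refl _) hh.1, fun v hv => ?_⟩
  rw [Pi.neg_apply, Pi.neg_apply, hh.2 v hv]

/-- `YY f` and its conditional mean are odd: `h ↦ -h` maps the height functions which agree with `g` on the half plane onto those which agree with `-g` -/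
theorem Yc_odd (f : Pl → ℝ) {g : V → ℤ} (hg : g ∈ Om p.2) : Yc d f (p, -g) = -Yc d f (p, g) := by
  have h1 : Cd d (YY f) (p, -g) = -Cd d (YY f) (p, g) := by
    unfold Cd GH.cm avg
    have e1 : ∀ h ∈ GH.agr (fun v => ld d v ≤ 0) p.2 (-g), -h ∈ GH.agr (fun v => ld d v ≤ 0) p.2 g :=
      fun h hh => by
        have := C2c_mem hh
        rwa [neg_neg] at this
    have e2 : (GH.agr (fun v => ld d v ≤ 0) p.2 (-g)).card =
        (GH.agr (fun v => ld d v ≤ 0) p.2 g).card :=
      Finset.card_nbij' (fun h => -h) (fun h => -h) e1 (fun h hh => C2c_mem hh)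
        (fun h _ => neg_neg h) (fun h _ => neg_neg h)
    have e3 : ∑ h ∈ GH.agr (fun v => ld d v ≤ 0) p.2 (-g), YY f (p, h) =
        -∑ h ∈ GH.agr (fun v => ld d v ≤ 0) p.2 g, YY f (p, h) := by
      rw [← Finset.sum_neg_distrib]
      refine Finset.sum_nbij' (fun h => -h) (fun h => -h) e1 (fun h hh => C2c_mem hh)
        (fun h _ => neg_neg h) (fun h _ => neg_neg h) fun h _ => ?_
      rw [C2c_YY, neg_neg]
    simp only
    rw [e2, e3, neg_div]
  unfold Yc
  rw [h1, C2c_YY]
  ring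

end GF.Lat
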