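import Pool.Agent.Helper34.GH.E2

/-!
GH (half planes), E3.  Sweeping out onto a neighbourhood of the line.
-/

open MeasureTheory Filter Topology

namespace GF

/-
`F = f - rf f` (`ne_sub_rf`) is odd.  `energy2_density` (Helper97/EN/Glue.lean, or `energy_density` in EF.lean): `g : Cc` with `energy2 (F - lap g) (F - lap g) < ε'`.  Let `g' = (g - rf g) / 2`, odd and `Cc`;
`F - lap g' = ((F - lap g) - rf (F - lap g)) / 2` (`lap_rf`, `F` odd), so `√energy2 (F - lap g') ≤ √ε'` (`sqrt_energy2_add`, `energy2_rf`, `energy2_smul_left/right`).  `cut_odd` for `g'`: `v` with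
`energy2 (lap w) (lap w) < ε'`, `w = g' - (v - rf v)`.  Take `u = -v`: `G = F + lap u - rf (lap u) = (F - lap g') + lap w`, so `√energy2 G G ≤ 2 √ε'`; `ε' = ε / 5`.
-/
private lemma E3_neg {v : Pl → ℝ} (hv : Cc v) (z : Pl) : lap (fun w => -v w) z = -lap v z := by
  have h := lap_smul (-1) hv.smooth z
  have e : (fun w => (-1 : ℝ) * v w) = fun w => -v w := by
    funext w
    ring
  rw [e] at h
  rw [h]
  ring

private lemma E3_half {d : Pl} (hd : Dir d) {P : Pl → ℝ} (hP : Ne P) :
    √(energy2 (fun z => (1 / 2 : ℝ) * P z + (-(1 / 2) : ℝ) * rf d 0 P z)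
      (fun z => (1 / 2 : ℝ) * P z + (-(1 / 2) : ℝ) * rf d 0 P z)) ≤ √(energy2 P P) := by
  have h := sqrt_energy2_add (hP.smul (1 / 2)) ((hP.rf hd 0).smul (-(1 / 2)))
  rw [energy2_smul_left, energy2_smul_right, energy2_smul_left, energy2_smul_right, energy2_rf hd] at h
  have e1 : √((1 / 2 : ℝ) * (1 / 2 * energy2 P P)) = 1 / 2 * √(energy2 P P) := by
    rw [show (1 / 2 : ℝ) * (1 / 2 * energy2 P P) = (1 / 2) ^ 2 * energy2 P P by ring,
      Real.sqrt_mul (by positivity), Real.sqrt_sq (by norm_num)]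
  have e2 : √((-(1 / 2) : ℝ) * (-(1 / 2) * energy2 P P)) = 1 / 2 * √(energy2 P P) := by
    rw [show (-(1 / 2) : ℝ) * (-(1 / 2) * energy2 P P) = (1 / 2) ^ 2 * energy2 P P by ring,
      Real.sqrt_mul (by positivity), Real.sqrt_sq (by norm_num)]
  rw [e1, e2] at h
  linarith

theorem sweep {d : Pl} (hd : Dir d) {f : Pl → ℝ} (hf : Cc f) {ε : ℝ} (hε : 0 < ε) :
    ∃ u : Pl → ℝ, Cc u ∧ tsupport u ⊆ {z | 0 < ell d z} ∧
      energy2 (fun z => (f z + lap u z) - rf d 0 (fun w => f w + lap u w) z)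
        (fun z => (f z + lap u z) - rf d 0 (fun w => f w + lap u w) z) < ε := by
  have hε' : 0 < ε / 5 := by positivity
  have hF := ne_sub_rf hd 0 hf
  obtain ⟨g, hg, hgε⟩ := energy2_density hF hε'
  set F : Pl → ℝ := fun z => f z - rf d 0 f z with hFd
  have hP : Ne (fun z => F z - lap g z) := hF.sub hg.ne_lap
  have hg' : Cc (fun z => (1 / 2 : ℝ) * (g z - rf d 0 g z)) := (hg.sub (hg.rf hd 0)).smul _
  set g' : Pl → ℝ := fun z => (1 / 2 : ℝ) * (g z - rf d 0 g z) with hg'd
  have ho : ∀ z, g' (refl d 0 z) = -g' z := by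
    intro z
    simp only [hg'd, rf, refl_refl hd]
    ring
  obtain ⟨v, hv, hvs, hvε⟩ := cut_odd hd hg' ho hε'
  have hw : Cc (fun z => g' z - (v z - rf d 0 v z)) := hg'.sub (hv.sub (hv.rf hd 0))
  set w : Pl → ℝ := fun z => g' z - (v z - rf d 0 v z) with hwd
  have hlg : ∀ z, lap g' z = 1 / 2 * (lap g z - rf d 0 (lap g) z) := by
    intro z
    rw [hg'd, lap_smul _ (hg.sub (hg.rf hd 0)).smooth, lap_sub hg.smooth (hg.rf hd 0).smooth,
      lap_rf hd 0 hg.smooth]
  have hlw : ∀ z, lap w z = lap g' z - (lap v z - rf d 0 (lap v) z) := by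
    intro z
    rw [hwd, lap_sub hg'.smooth (hv.sub (hv.rf hd 0)).smooth, lap_sub hv.smooth (hv.rf hd 0).smooth,
      lap_rf hd 0 hv.smooth]
  have hP1 : Ne (fun z => F z - lap g' z) := hF.sub hg'.ne_lap
  have e1 : (fun z => F z - lap g' z) = fun z => (1 / 2 : ℝ) * (F z - lap g z) +
      (-(1 / 2) : ℝ) * rf d 0 (fun z => F z - lap g z) z := by
    funext z
    rw [hlg]
    simp only [hFd, rf, refl_refl hd]
    ring
  have b1 : √(energy2 (fun z => F z - lap g' z) (fun z => F z - lap g' z)) ≤ √(ε / 5) := by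
    rw [e1]
    exact (E3_half hd hP).trans (Real.sqrt_le_sqrt hgε.le)
  have b2 : √(energy2 (lap w) (lap w)) ≤ √(ε / 5) := Real.sqrt_le_sqrt hvε.le
  have e2 : (fun z => (f z + lap (fun y => -v y) z) - rf d 0 (fun w => f w + lap (fun y => -v y) w) z) =
      fun z => (F z - lap g' z) + lap w z := by
    funext z
    rw [hlw]
    simp only [rf, E3_neg hv, hFd]
    ring
  refine ⟨fun z => -v z, hv.neg, ?_, ?_⟩
  · have e3 : tsupport (fun z => -v z) = tsupport v := by
      unfold tsupport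
      congr 1
      ext z
      simp [Function.mem_support]
    rw [e3]
    exact hvs
  · rw [e2]
    have h := sqrt_energy2_add hP1 hw.ne_lap
    have h1 : √(energy2 (fun z => (F z - lap g' z) + lap w z) (fun z => (F z - lap g' z) + lap w z)) ≤
        2 * √(ε / 5) := by linarith
    have h2 : 0 ≤ energy2 (fun z => (F z - lap g' z) + lap w z) (fun z => (F z - lap g' z) + lap w z) :=
      energy2_nonneg (hP1.add hw.ne_lap)
    have h3 : energy2 (fun z => (F z - lap g' z) + lap w z) (fun z => (F z - lap g' z) + lap w z) ≤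
        (2 * √(ε / 5)) ^ 2 := by
      rw [← Real.sq_sqrt h2]
      exact pow_le_pow_left₀ (Real.sqrt_nonneg _) h1 2
    rw [mul_pow, Real.sq_sqrt hε'.le] at h3
    linarith

private lemma E3_tri {P Q R : Pl → ℝ} (hP : Ne P) (hQ : Ne Q) (hF : R = fun z => P z - Q z) :
    √(energy2 R R) ≤ √(energy2 P P) + √(energy2 Q Q) := by
  have h := sqrt_energy2_add hP (hQ.smul (-1))
  rw [energy2_smul_left, energy2_smul_right] at h
  have e : (fun z => P z + (-1 : ℝ) * Q z) = R := by
    rw [hF]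
    funext z
    ring
  rw [e] at h
  rw [show (-1 : ℝ) * (-1 * energy2 Q Q) = energy2 Q Q by ring] at h
  exact h

/-
`F = G - (lap u - rf (lap u))` with `G` as in `sweep`, so `|√energy2 F F - √energy2 (lap u - rf lap u)| ≤ √energy2 G G` (`sqrt_energy2_add` twice) and
`energy2 (lap u - lap (rf u)) = 2 energy2 (lap u) (lap u)` (`lap_rf`, `energy_odd` for `lap u`, `energy_cross`).  With `energy_odd`: `√(energy2 f f - energy2 f (rf f))` and `√(energy2 (lap u) (lap u))`
differ by at most `√(energy2 G G)`.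
-/
theorem sweep_energy {d : Pl} (hd : Dir d) {f u : Pl → ℝ} (hf : Cc f) (hu : Cc u) (hus : tsupport u ⊆ {z | 0 < ell d z}) :
    |√(energy2 f f - energy2 f (rf d 0 f)) - √(energy2 (lap u) (lap u))| ≤
      √(energy2 (fun z => (f z + lap u z) - rf d 0 (fun w => f w + lap u w) z)
        (fun z => (f z + lap u z) - rf d 0 (fun w => f w + lap u w) z)) := by
  have hF := ne_sub_rf hd 0 hf
  have hL := ne_sub_rf hd 0 hu.lap
  have hG := ne_sub_rf hd 0 (hf.add hu.lap)
  have eF := energy_odd hd hf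
  have eL := energy_odd hd hu.lap
  rw [← lap_rf hd 0 hu.smooth, energy_cross hd hu hu hus hus, sub_zero] at eL
  rw [lap_rf hd 0 hu.smooth] at eL
  have e1 : (fun z => f z - rf d 0 f z) = fun z =>
      ((f z + lap u z) - rf d 0 (fun w => f w + lap u w) z) - (lap u z - rf d 0 (lap u) z) := by
    funext z
    simp only [rf]
    ring
  have e2 : (fun z => lap u z - rf d 0 (lap u) z) = fun z =>
      ((f z + lap u z) - rf d 0 (fun w => f w + lap u w) z) - (f z - rf d 0 f z) := by
    funext z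
    simp only [rf]
    ring
  have t1 := E3_tri hG hL e1
  have t2 := E3_tri hG hF e2
  rw [eF, eL] at t1 t2
  rw [Real.sqrt_mul (by norm_num), Real.sqrt_mul (by norm_num)] at t1 t2
  have h2 : 1 ≤ √(2 : ℝ) := by
    rw [Real.one_le_sqrt]
    norm_num
  set A := √(energy2 f f - energy2 f (rf d 0 f))
  set B := √(energy2 (lap u) (lap u))
  set C := √(energy2 (fun z => (f z + lap u z) - rf d 0 (fun w => f w + lap u w) z)
        (fun z => (f z + lap u z) - rf d 0 (fun w => f w + lap u w) z))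
  have h3 : |√2 * A - √2 * B| ≤ C := by
    rw [abs_le]
    constructor <;> linarith
  rw [← mul_sub, abs_mul, abs_of_pos (by positivity)] at h3
  exact (le_mul_of_one_le_left (abs_nonneg _) h2).trans h3

end GF
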