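import Pool.Agent.Helper34.GH.C2
import Pool.Agent.Helper34.GH.E3
import Pool.Agent.Helper34.GF.F6

/-!
GH (half planes), D1.  The pairing minus its conditional mean is close to a pairing with a Laplacian.
-/

open MeasureTheory Filter Topology

namespace GF.Lat

open RP4 (V avg Om dom Deloc wt)

variable {d : ℤ × ℤ}

/-- the covariance of the Dirichlet field of the half plane `0 < ell d z` -/
noncomputable def hcov (d : Pl) (f g : Pl → ℝ) : ℝ := energy2 f g - energy2 f (rf d 0 g)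

private theorem D1_zero_mul {I : Type} (M : Lim I) {D C : I → ℝ} (hD : M.Ok D) (hC : M.Ok C)
    (h0 : M.L (fun i => D i ^ 2) = 0) : M.L (fun i => D i * C i) = 0 := by
  have h1 := M.cs D C hD hC
  rw [h0, zero_mul] at h1
  exact pow_eq_zero_iff (two_ne_zero) |>.1 (le_antisymm h1 (sq_nonneg _))

private theorem D1_two (hdl : Deloc) {U : Ultrafilter (ℝ × Finset V)} (hU : (U : Filter (ℝ × Finset V)) ≤ itf)
    {F G : Pl → ℝ} (hF : Ne F) (hG : Ne G) :
    (latFld hdl U hU).L (fun i => YY F i * YY G i) = (latFld hdl U hU).K * energy2 F G := by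
  set M := latFld hdl U hU with hM
  have oF : M.Ok (YY F) := latFld_ok_YY hdl U hU hF
  have oG : M.Ok (YY G) := latFld_ok_YY hdl U hU hG
  have xF : M.Ok (M.X F) := M.ok_X F hF
  have xG : M.Ok (M.X G) := M.ok_X G hG
  have dF : M.Ok (fun i => YY F i - M.X F i) := M.ok_sub _ _ oF xF
  have dG : M.Ok (fun i => YY G i - M.X G i) := M.ok_sub _ _ oG xG
  have z1 : M.L (fun i => (YY F i - M.X F i) * YY G i) = 0 :=
    D1_zero_mul M.toLim dF oG (latFld_YY hdl U hU hF)
  have z2 : M.L (fun i => (YY G i - M.X G i) * M.X F i) = 0 :=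
    D1_zero_mul M.toLim dG xF (latFld_YY hdl U hU hG)
  have e : (fun i => YY F i * YY G i) = fun i => M.X F i * M.X G i +
      ((YY F i - M.X F i) * YY G i + (YY G i - M.X G i) * M.X F i) := by
    funext i
    ring
  rw [e, M.L_add _ _ (M.ok_mul _ _ xF xG) (M.ok_add _ _ (M.ok_mul _ _ dF oG) (M.ok_mul _ _ dG xF)),
    M.L_add _ _ (M.ok_mul _ _ dF oG) (M.ok_mul _ _ dG xF), z1, z2, M.two F G hF hG]
  ring

private theorem D1_cos (hdl : Deloc) {U : Ultrafilter (ℝ × Finset V)} (hU : (U : Filter (ℝ × Finset V)) ≤ itf)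
    {F : Pl → ℝ} (hF : Ne F) :
    (latFld hdl U hU).L (fun i => Real.cos (YY F i)) =
      (latFld hdl U hU).L (fun i => Real.cos ((latFld hdl U hU).X F i)) := by
  set M := latFld hdl U hU with hM
  have oF : M.Ok (YY F) := latFld_ok_YY hdl U hU hF
  have xF : M.Ok (M.X F) := M.ok_X F hF
  have dF : M.Ok (fun i => YY F i - M.X F i) := M.ok_sub _ _ oF xF
  have o1 : M.Ok (fun i => Real.cos (YY F i)) := M.ok_bdd _ 1 fun i => Real.abs_cos_le_one _
  have o2 : M.Ok (fun i => Real.cos (M.X F i)) := M.ok_bdd _ 1 fun i => Real.abs_cos_le_one _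
  have h1 := M.abs_L_le_of_le (fun i => Real.cos (YY F i) - Real.cos (M.X F i))
    (fun i => |YY F i - M.X F i|) (M.ok_abs _ dF) fun i => Real.abs_cos_sub_cos_le _ _
  have h2 := M.L_abs_le_sqrt _ dF
  have h3 : M.L (fun i => (YY F i - M.X F i) ^ 2) = 0 := latFld_YY hdl U hU hF
  rw [h3, Real.sqrt_zero] at h2
  rw [M.L_sub _ _ o1 o2] at h1
  have h4 := abs_nonpos_iff.1 (h1.trans h2)
  linarith

/-
In `M = latFld hdl U hU`: `M.L ((YY F - X F)²) = 0` (`latFld_YY`) for both, so `M.L (YY F * YY G) = M.L (X F * X G)` (Cauchy-Schwarz, `Lim.cs`) `= K energy2 F G` (`Fld.two`, `latFld_K`).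
-/
theorem LU_YY (hdl : Deloc) {U : Ultrafilter (ℝ × Finset V)} (hU : (U : Filter (ℝ × Finset V)) ≤ itf) {F G : Pl → ℝ}
    (hF : Ne F) (hG : Ne G) : LU U (fun i => YY F i * YY G i) = Kc hdl * energy2 F G :=
  D1_two hdl hU hF hG

/-- `|L cos (YY F) - L cos (X F)| ≤ L |YY F - X F| = 0` (`latFld_YY`), `all_gauss` (F2.lean) with `rad_fun` -/
theorem LU_cos_YY (hdl : Deloc) {U : Ultrafilter (ℝ × Finset V)} (hU : (U : Filter (ℝ × Finset V)) ≤ itf) {F : Pl → ℝ}
    (hF : Ne F) : LU U (fun i => Real.cos (YY F i)) = Real.exp (-(Kc hdl * energy2 F F / 2)) := by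
  obtain ⟨χ, hχ⟩ := rad_fun (latFld hdl U hU)
  exact (D1_cos hdl hU hF).trans (all_gauss _ χ hχ F hF)

/-
`e = f + lap u` (`Cc`, supported in the upper half plane: `tsupport_lap`).  `Yc f + YY (lap u) = Yc e + Cd (YY (lap u))` (`Yc_add`), so the square is `≤ 2 (Yc e)² + 2 (Cd (YY (lap u)))²`.
For `p.2` symmetric, `0 < p.1` (both hold eventually along `U`: `sitf_sym`, `itf_pos`, `sitf_le`): `ev p (Yc e)² = 1/2 ev p (YY e - Th (YY e))²` (`ev_sub_Cd`, `YY_upp`) `= 1/2 ev p (YY G)²` (`Th_YY`, `YY_add`,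
`YY_smul`), hence `LU (Yc e)² = K/2 energy2 G G` (`LU_YY`, `LU_congr`, `G` neutral by `ne_sub_rf`); `ev p (Cd (YY (lap u)))² = ev p (YY (lap u) * YY (rf (lap u)))` (`ev_Cd_sq`, `Th_YY`), so its limit is
`K energy2 (lap u) (rf (lap u)) = 0` (`lap_rf`, `energy_cross`).
-/
theorem key_est (hdl : Deloc) (hd : DirZ d) {U : Ultrafilter (ℝ × Finset V)} (hU : (U : Filter (ℝ × Finset V)) ≤ sitf d)
    {f u : Pl → ℝ} (hf : Cc f) (hfs : tsupport f ⊆ {z | 0 < ell (dr d) z}) (hu : Cc u)
    (hus : tsupport u ⊆ {z | 0 < ell (dr d) z}) :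
    LU U (fun i => (Yc d f i + YY (lap u) i) ^ 2) ≤
      Kc hdl * energy2 (fun z => (f z + lap u z) - rf (dr d) 0 (fun w => f w + lap u w) z)
        (fun z => (f z + lap u z) - rf (dr d) 0 (fun w => f w + lap u w) z) := by
  have hU' : (U : Filter (ℝ × Finset V)) ≤ itf := hU.trans (sitf_le d)
  have hdr := dr_dir hd
  have hpos : ∀ᶠ p in (U : Filter (ℝ × Finset V)), 0 < p.1 := itf_pos.filter_mono hU'
  have hsym : ∀ᶠ p in (U : Filter (ℝ × Finset V)), p.2 ∈ symd d := (sitf_sym d).filter_mono hU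
  have he : Cc (fun z => f z + lap u z) := hf.add hu.lap
  have hes : tsupport (fun z => f z + lap u z) ⊆ {z | 0 < ell (dr d) z} := by
    have h1 : tsupport (fun z => f z + lap u z) ⊆ tsupport f ∪ tsupport (lap u) := by
      unfold tsupport
      rw [← closure_union]
      refine closure_mono fun z hz => ?_
      by_contra h
      rw [Set.mem_union, not_or, Function.notMem_support, Function.notMem_support] at h
      exact hz (by show f z + lap u z = 0; rw [h.1, h.2, add_zero])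
    exact h1.trans (Set.union_subset hfs ((tsupport_lap u).trans hus))
  have hls : tsupport (lap u) ⊆ {z | 0 < ell (dr d) z} := (tsupport_lap u).trans hus
  have hG := GF.ne_sub_rf hdr 0 he
  have hL : Ne (lap u) := hu.ne_lap
  -- Ok facts
  have ok1 : OkU (U : Filter (ℝ × Finset V)) (Yc d fun z => f z + lap u z) := Yc_ok hdl hd hU' he
  have ok2 : OkU (U : Filter (ℝ × Finset V)) (YY (lap u)) := YY_ok hdl (logBd hdl) (Kc_two hdl) hU' hL
  have ok3 : OkU (U : Filter (ℝ × Finset V)) (Cd d (YY (lap u))) := Cd_ok ok2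
  have ok4 : OkU (U : Filter (ℝ × Finset V)) (Yc d f) := Yc_ok hdl hd hU' hf
  have sq_ok : ∀ A : Ix → ℝ, OkU (U : Filter (ℝ × Finset V)) A →
      OkU (U : Filter (ℝ × Finset V)) (fun i => A i ^ 2) := by
    intro A hA
    have h := hA.mul hA
    have e : (fun i => A i ^ 2) = fun i => A i * A i := funext fun i => sq _
    rw [e]
    exact h
  have dbl_ok : ∀ A : Ix → ℝ, OkU (U : Filter (ℝ × Finset V)) A →
      OkU (U : Filter (ℝ × Finset V)) (fun i => 2 * A i ^ 2) := by
    intro A hA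
    exact (OkU.const hU' 2).mul (sq_ok A hA)
  -- first square
  have lim1 : LU U (fun i => Yc d (fun z => f z + lap u z) i ^ 2) = 1 / 2 * (Kc hdl *
      energy2 (fun z => (f z + lap u z) - rf (dr d) 0 (fun w => f w + lap u w) z)
        (fun z => (f z + lap u z) - rf (dr d) 0 (fun w => f w + lap u w) z)) := by
    rw [← LU_YY hdl hU' hG hG]
    have okG : OkU (U : Filter (ℝ × Finset V))
        (YY fun z => (f z + lap u z) - rf (dr d) 0 (fun w => f w + lap u w) z) :=
      YY_ok hdl (logBd hdl) (Kc_two hdl) hU' hG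
    rw [← LU_smul (1 / 2) (okG.mul okG)]
    refine LU_eq ((LU_tendsto ((OkU.const hU' (1 / 2)).mul (okG.mul okG))).congr' ?_)
    filter_upwards [hpos, hsym] with p h1 h2
    have h3 := ev_sub_Cd hd h2 (YY_upp hes h1)
    have h4 : ev p (fun i => Yc d (fun z => f z + lap u z) i ^ 2) =
        1 / 2 * ev p (fun i => (YY (fun z => f z + lap u z) i - Th d (YY fun z => f z + lap u z) i) ^ 2) := h3
    rw [h4, ← ev_smul]
    refine ev_congr p fun g _ => ?_
    have h5 : YY (fun z => (f z + lap u z) - rf (dr d) 0 (fun w => f w + lap u w) z) (p, g) =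
        YY (fun z => f z + lap u z) (p, g) - YY (rf (dr d) 0 (fun w => f w + lap u w)) (p, g) := by
      have e : (fun z => (f z + lap u z) - rf (dr d) 0 (fun w => f w + lap u w) z) =
          fun z => (f z + lap u z) + (-1) * rf (dr d) 0 (fun w => f w + lap u w) z := by
        funext z
        ring
      rw [e, YY_add (fun z => f z + lap u z) (fun z => (-1) * rf (dr d) 0 (fun w => f w + lap u w) z), YY_smul]
      ring
    rw [h5, Th_YY hd h2]
    ring
  -- second square
  have lim2 : LU U (fun i => Cd d (YY (lap u)) i ^ 2) = 0 := by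
    have hR : Ne (rf (dr d) 0 (lap u)) := hL.rf hdr 0
    have h0 : energy2 (lap u) (rf (dr d) 0 (lap u)) = 0 := by
      rw [← lap_rf hdr 0 hu.smooth]
      exact energy_cross hdr hu hu hus hus
    have h1 := LU_YY hdl hU' hL hR
    rw [h0, mul_zero] at h1
    rw [← h1]
    have okR : OkU (U : Filter (ℝ × Finset V)) (YY (rf (dr d) 0 (lap u))) :=
      YY_ok hdl (logBd hdl) (Kc_two hdl) hU' hR
    refine LU_eq ((LU_tendsto (ok2.mul okR)).congr' ?_)
    filter_upwards [hpos, hsym] with p h2 h3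
    rw [ev_Cd_sq hd h3 (YY_upp hls h2)]
    refine ev_congr p fun g _ => ?_
    rw [Th_YY hd h3]
  -- the pointwise bound
  have hpt : ∀ i, (Yc d f i + YY (lap u) i) ^ 2 ≤
      2 * Yc d (fun z => f z + lap u z) i ^ 2 + 2 * Cd d (YY (lap u)) i ^ 2 := by
    intro i
    have h1 : Yc d f i + YY (lap u) i = Yc d (fun z => f z + lap u z) i + Cd d (YY (lap u)) i := by
      rw [Yc_add]
      have h2 : Yc d (lap u) i = YY (lap u) i - Cd d (YY (lap u)) i := rfl
      rw [h2]
      ring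
    rw [h1]
    nlinarith [sq_nonneg (Yc d (fun z => f z + lap u z) i - Cd d (YY (lap u)) i)]
  have hle := LU_mono (U := U) (sq_ok _ (ok4.add ok2)) ((dbl_ok _ ok1).add (dbl_ok _ ok3)) hpt
  rw [LU_add (dbl_ok _ ok1) (dbl_ok _ ok3), LU_smul 2 (sq_ok _ ok1), LU_smul 2 (sq_ok _ ok3), lim1, lim2] at hle
  linarith

end GF.Lat
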