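import Pool.Agent.Helper34.GH.D1

/-!
GH (half planes), D2.  Characteristic functions.
-/

open MeasureTheory Filter Topology

namespace GF.Lat

open RP4 (V avg Om dom Deloc wt)

variable {d : ℤ × ℤ}

private lemma D2_sq {U : Filter (ℝ × Finset V)} {A : Ix → ℝ} (hA : OkU U A) : OkU U (fun i => A i ^ 2) := by
  have e : (fun i => A i ^ 2) = fun i => A i * A i := funext fun i => sq _
  rw [e]
  exact hA.mul hA

private lemma D2_okcos {U : Filter (ℝ × Finset V)} (hU : U ≤ itf) (A : Ix → ℝ) :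
    OkU U (fun i => Real.cos (A i)) :=
  OkU.of_abs_le (B := fun _ => 1) (fun i => by
    rw [abs_one]
    exact Real.abs_cos_le_one _) (OkU.const hU 1)

private lemma D2_const {U : Ultrafilter (ℝ × Finset V)} (hU : (U : Filter (ℝ × Finset V)) ≤ itf) (c : ℝ) :
    LU U (fun _ => c) = c := by
  have h := LU_smul (U := U) c (OkU.const hU 1)
  rw [LU_one hU, mul_one] at h
  simpa using h

private lemma D2_half {U : Ultrafilter (ℝ × Finset V)} (hU : (U : Filter (ℝ × Finset V)) ≤ itf) {A B : Ix → ℝ}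
    (hA : OkU (U : Filter (ℝ × Finset V)) A) (hB : OkU (U : Filter (ℝ × Finset V)) B) {s : ℝ} (hs : 0 < s) :
    LU U (fun i => Real.cos (A i)) ≤ LU U (fun i => Real.cos (B i)) +
      (1 / (2 * s) * LU U (fun i => (A i + B i) ^ 2) + s / 2) := by
  have h2 := D2_sq (hA.add hB)
  have h3 : OkU (U : Filter (ℝ × Finset V)) (fun i => 1 / (2 * s) * (A i + B i) ^ 2) :=
    (OkU.const hU (1 / (2 * s))).mul h2
  have h4 := D2_okcos hU B
  have hc := OkU.const hU (s / 2)
  have h1 : LU U (fun i => Real.cos (A i)) ≤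
      LU U (fun i => Real.cos (B i) + (1 / (2 * s) * (A i + B i) ^ 2 + s / 2)) := by
    refine LU_mono (D2_okcos hU A) (h4.add (h3.add hc)) fun i => ?_
    have h5 := (abs_le.1 (Real.abs_cos_sub_cos_le (A i) (-B i))).2
    rw [Real.cos_neg, sub_neg_eq_add] at h5
    have h6 : |A i + B i| ≤ 1 / (2 * s) * (A i + B i) ^ 2 + s / 2 := by
      obtain ⟨t, ht⟩ : ∃ t, t = |A i + B i| := ⟨_, rfl⟩
      rw [← sq_abs (A i + B i), ← ht]
      have h7 : 1 / (2 * s) * t ^ 2 + s / 2 - t = (t - s) ^ 2 / (2 * s) := by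
        field_simp
        ring
      have h8 : 0 ≤ (t - s) ^ 2 / (2 * s) := by positivity
      linarith
    linarith
  rw [LU_add h4 (h3.add hc), LU_add h3 hc, LU_smul _ h2, D2_const hU] at h1
  exact h1

private lemma D2_lip {U : Ultrafilter (ℝ × Finset V)} (hU : (U : Filter (ℝ × Finset V)) ≤ itf) {A B : Ix → ℝ}
    (hA : OkU (U : Filter (ℝ × Finset V)) A) (hB : OkU (U : Filter (ℝ × Finset V)) B) {s : ℝ} (hs : 0 < s) :
    |LU U (fun i => Real.cos (A i)) - LU U (fun i => Real.cos (B i))| ≤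
      1 / (2 * s) * LU U (fun i => (A i + B i) ^ 2) + s / 2 := by
  have h1 := D2_half hU hA hB hs
  have h2 := D2_half hU hB hA hs
  have h3 : (fun i => (B i + A i) ^ 2) = fun i => (A i + B i) ^ 2 := by
    funext i
    ring
  rw [h3] at h2
  rw [abs_le]
  constructor <;> linarith

/-- the square of the difference -/
private lemma D2_diff (hdl : Deloc) (hd : DirZ d) {U : Ultrafilter (ℝ × Finset V)}
    (hU : (U : Filter (ℝ × Finset V)) ≤ sitf d) {f g u v : Pl → ℝ} (hf : Cc f)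
    (hfs : tsupport f ⊆ {z | 0 < ell (dr d) z}) (hg : Cc g) (hgs : tsupport g ⊆ {z | 0 < ell (dr d) z})
    (hu : Cc u) (hus : tsupport u ⊆ {z | 0 < ell (dr d) z}) (hv : Cc v)
    (hvs : tsupport v ⊆ {z | 0 < ell (dr d) z}) {ε : ℝ}
    (h1 : energy2 (fun z => (f z + lap u z) - rf (dr d) 0 (fun w => f w + lap u w) z)
        (fun z => (f z + lap u z) - rf (dr d) 0 (fun w => f w + lap u w) z) < ε)
    (h2 : energy2 (fun z => (g z + lap v z) - rf (dr d) 0 (fun w => g w + lap v w) z)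
        (fun z => (g z + lap v z) - rf (dr d) 0 (fun w => g w + lap v w) z) < ε) :
    LU U (fun i => ((Yc d f i + Th d (Yc d g) i) + YY (fun z => lap u z + rf (dr d) 0 (lap v) z) i) ^ 2) ≤
      4 * Kc hdl * ε := by
  have hU' : (U : Filter (ℝ × Finset V)) ≤ itf := hU.trans (sitf_le d)
  have hsym : ∀ᶠ p in (U : Filter (ℝ × Finset V)), p.2 ∈ symd d := (sitf_sym d).filter_mono hU
  have okP : OkU (U : Filter (ℝ × Finset V)) (fun i => Yc d f i + YY (lap u) i) :=
    (Yc_ok hdl hd hU' hf).add (YY_ok hdl (logBd hdl) (Kc_two hdl) hU' hu.ne_lap)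
  have okQ : OkU (U : Filter (ℝ × Finset V)) (fun i => Yc d g i + YY (lap v) i) :=
    (Yc_ok hdl hd hU' hg).add (YY_ok hdl (logBd hdl) (Kc_two hdl) hU' hv.ne_lap)
  have okT := Th_ok hd hU okQ
  have e1 : LU U (fun i => ((Yc d f i + Th d (Yc d g) i) +
      YY (fun z => lap u z + rf (dr d) 0 (lap v) z) i) ^ 2) =
      LU U (fun i => ((Yc d f i + YY (lap u) i) + Th d (fun i => Yc d g i + YY (lap v) i) i) ^ 2) := by
    refine LU_congr ?_
    filter_upwards [hsym] with p hp h _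
    have h3 : Th d (fun i => Yc d g i + YY (lap v) i) (p, h) =
        Th d (Yc d g) (p, h) + YY (rf (dr d) 0 (lap v)) (p, h) := by
      rw [← Th_YY hd hp]
      rfl
    simp only [h3]
    rw [YY_add (lap u) (rf (dr d) 0 (lap v))]
    ring
  rw [e1]
  have d2 : ∀ A : Ix → ℝ, OkU (U : Filter (ℝ × Finset V)) A →
      OkU (U : Filter (ℝ × Finset V)) (fun i => 2 * A i ^ 2) :=
    fun A hA => (OkU.const hU' 2).mul (D2_sq hA)
  have h3 := LU_mono (U := U) (D2_sq (okP.add okT)) ((d2 _ okP).add (d2 _ okT)) fun i => by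
    nlinarith [sq_nonneg ((Yc d f i + YY (lap u) i) - Th d (fun i => Yc d g i + YY (lap v) i) i)]
  rw [LU_add (d2 _ okP) (d2 _ okT), LU_smul 2 (D2_sq okP), LU_smul 2 (D2_sq okT)] at h3
  have h4 : LU U (fun i => Th d (fun i => Yc d g i + YY (lap v) i) i ^ 2) =
      LU U (fun i => (Yc d g i + YY (lap v) i) ^ 2) := by
    refine LU_eq ((LU_tendsto (D2_sq okQ)).congr' ?_)
    filter_upwards [hsym] with p hp
    exact (ev_Th hd hp (fun i => (Yc d g i + YY (lap v) i) ^ 2)).symm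
  rw [h4] at h3
  have h5 := key_est hdl hd hU hf hfs hu hus
  have h6 := key_est hdl hd hU hg hgs hv hvs
  have hK := Kc_nonneg hdl
  have h7 := mul_le_mul_of_nonneg_left h1.le hK
  have h8 := mul_le_mul_of_nonneg_left h2.le hK
  linarith

private lemma D2_energy (hd : DirZ d) {u v : Pl → ℝ} (hu : Cc u) (hv : Cc v)
    (hus : tsupport u ⊆ {z | 0 < ell (dr d) z}) (hvs : tsupport v ⊆ {z | 0 < ell (dr d) z}) :
    energy2 (fun z => lap u z + rf (dr d) 0 (lap v) z) (fun z => lap u z + rf (dr d) 0 (lap v) z) =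
      energy2 (lap u) (lap u) + energy2 (lap v) (lap v) := by
  have hD := dr_dir hd
  have hR : Cc (rf (dr d) 0 (lap v)) := hv.lap.rf hD 0
  have hF : Cc (fun z => lap u z + rf (dr d) 0 (lap v) z) := hu.lap.add hR
  have hx : energy2 (lap u) (rf (dr d) 0 (lap v)) = 0 := by
    rw [← lap_rf hD 0 hv.smooth]
    exact energy_cross hD hu hv hus hvs
  rw [energy2_add_left hu.lap hR hF, energy2_add_right hu.lap hR hu.lap, energy2_add_right hu.lap hR hR,
    energy2_rf hD, hx, energy2_symm hR hu.lap, hx]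
  ring

private lemma D2_lim {a : ℕ → ℝ} {c : ℝ} (hc : 0 ≤ c) (ha : ∀ n, 0 ≤ a n)
    (h : ∀ n : ℕ, |√c - √(a n)| ≤ 1 / ((n : ℝ) + 1)) : Tendsto a atTop (𝓝 c) := by
  have h1 : Tendsto (fun n => √(a n)) atTop (𝓝 (√c)) := by
    rw [tendsto_iff_dist_tendsto_zero]
    refine squeeze_zero (fun _ => dist_nonneg) (fun n => ?_) tendsto_one_div_add_atTop_nhds_zero_nat
    rw [dist_comm, Real.dist_eq]
    exact h n
  have h2 := h1.pow 2
  rw [Real.sq_sqrt hc] at h2
  refine h2.congr fun n => ?_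
  rw [Real.sq_sqrt (ha n)]

private lemma D2_hcov (hd : DirZ d) {f : Pl → ℝ} (hf : Cc f) : 0 ≤ hcov (dr d) f f := by
  have h1 := energy_odd (dr_dir hd) hf
  have h2 := energy2_nonneg (GF.ne_sub_rf (dr_dir hd) 0 hf)
  rw [h1] at h2
  unfold hcov
  linarith

/-
Let `ε_n = 1 / (n + 1)`, `u_n` for `f` and `v_n` for `g` from `sweep` (with `dr d`, `dr_dir`).  `A = Yc f + Th (Yc g)`, `B_n = -(YY (lap u_n) + YY (lap (rf v_n)))`.  Along `U` (symmetric domains, `0 < p.1`)
`A - B_n = (Yc f + YY (lap u_n)) + Th (Yc g + YY (lap v_n))` on `Om` (`Th_YY`, `lap_rf`), so `LU ((A - B_n)²) ≤ 2 K ε_n + 2 K ε_n` (`key_est`; `ev_Th` for the second).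
`|LU cos A - LU cos B_n| ≤ √(LU ((A - B_n)²)) ≤ √(4 K ε_n)`.  `LU cos B_n = LU cos (YY F_n)` with `F_n = lap u_n + lap (rf v_n)` neutral, `= exp (-(K energy2 F_n F_n / 2))` (`LU_cos_YY`) and
`energy2 F_n F_n = energy2 (lap u_n) (lap u_n) + energy2 (lap v_n) (lap v_n)` (`energy_cross`, `lap_rf`, `energy2_rf`, symmetry), which tends to `hcov f f + hcov g g` (`sweep_energy`, squares of converging
square roots; `hcov f f ≥ 0` by `energy_odd`, `energy2_nonneg`).
-/
theorem char_half (hdl : Deloc) (hd : DirZ d) {U : Ultrafilter (ℝ × Finset V)} (hU : (U : Filter (ℝ × Finset V)) ≤ sitf d)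
    {f g : Pl → ℝ} (hf : Cc f) (hfs : tsupport f ⊆ {z | 0 < ell (dr d) z}) (hg : Cc g)
    (hgs : tsupport g ⊆ {z | 0 < ell (dr d) z}) :
    LU U (fun i => Real.cos (Yc d f i + Th d (Yc d g) i)) =
      Real.exp (-(Kc hdl * (hcov (dr d) f f + hcov (dr d) g g) / 2)) := by
  have hU' : (U : Filter (ℝ × Finset V)) ≤ itf := hU.trans (sitf_le d)
  have hD := dr_dir hd
  have hpos : ∀ n : ℕ, (0 : ℝ) < (1 / ((n : ℝ) + 1)) ^ 2 := fun n => by positivity
  choose u hu hus hue using fun n : ℕ => sweep hD hf (hpos n)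
  choose v hv hvs hve using fun n : ℕ => sweep hD hg (hpos n)
  have hFn : ∀ n, Ne (fun z => lap (u n) z + rf (dr d) 0 (lap (v n)) z) := fun n =>
    (hu n).ne_lap.add ((hv n).ne_lap.rf hD 0)
  have okA : OkU (U : Filter (ℝ × Finset V)) (fun i => Yc d f i + Th d (Yc d g) i) :=
    (Yc_ok hdl hd hU' hf).add (Th_ok hd hU (Yc_ok hdl hd hU' hg))
  have okB : ∀ n, OkU (U : Filter (ℝ × Finset V)) (YY fun z => lap (u n) z + rf (dr d) 0 (lap (v n)) z) :=
    fun n => YY_ok hdl (logBd hdl) (Kc_two hdl) hU' (hFn n)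
  have hs0 : Tendsto (fun n : ℕ => 1 / ((n : ℝ) + 1)) atTop (𝓝 0) :=
    tendsto_one_div_add_atTop_nhds_zero_nat
  have ha : Tendsto (fun n => LU U (fun i => Real.cos
      (YY (fun z => lap (u n) z + rf (dr d) 0 (lap (v n)) z) i))) atTop
      (𝓝 (LU U (fun i => Real.cos (Yc d f i + Th d (Yc d g) i)))) := by
    have hb : Tendsto (fun n : ℕ => (2 * Kc hdl + 1 / 2) * (1 / ((n : ℝ) + 1))) atTop (𝓝 0) := by
      have := hs0.const_mul (2 * Kc hdl + 1 / 2)
      rwa [mul_zero] at this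
    rw [tendsto_iff_dist_tendsto_zero]
    refine squeeze_zero (fun _ => dist_nonneg) (fun n => ?_) hb
    have hs : (0 : ℝ) < 1 / ((n : ℝ) + 1) := by positivity
    have h1 := D2_lip hU' okA (okB n) hs
    have h2 := D2_diff hdl hd hU hf hfs hg hgs (hu n) (hus n) (hv n) (hvs n) (hue n) (hve n)
    rw [dist_comm, Real.dist_eq]
    refine h1.trans ?_
    obtain ⟨s, hsd⟩ : ∃ s : ℝ, s = 1 / ((n : ℝ) + 1) := ⟨_, rfl⟩
    rw [← hsd] at hs h2 ⊢
    have h4 : (0 : ℝ) ≤ 1 / (2 * s) := by positivity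
    have h5 := mul_le_mul_of_nonneg_left h2 h4
    have h6 : 1 / (2 * s) * (4 * Kc hdl * s ^ 2) = 2 * Kc hdl * s := by
      field_simp
      try ring
    rw [h6] at h5
    linarith
  have hr : ∀ n, LU U (fun i => Real.cos (YY (fun z => lap (u n) z + rf (dr d) 0 (lap (v n)) z) i)) =
      Real.exp (-(Kc hdl * (energy2 (lap (u n)) (lap (u n)) + energy2 (lap (v n)) (lap (v n))) / 2)) := by
    intro n
    rw [LU_cos_YY hdl hU' (hFn n), D2_energy hd (hu n) (hv n) (hus n) (hvs n)]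
  have hsq : ∀ n : ℕ, √((1 / ((n : ℝ) + 1)) ^ 2) = 1 / ((n : ℝ) + 1) := fun n =>
    Real.sqrt_sq (by positivity)
  have l1 : Tendsto (fun n => energy2 (lap (u n)) (lap (u n))) atTop (𝓝 (hcov (dr d) f f)) := by
    refine D2_lim (D2_hcov hd hf) (fun n => energy2_nonneg (hu n).ne_lap) fun n => ?_
    refine (sweep_energy hD hf (hu n) (hus n)).trans ?_
    rw [← hsq n]
    exact Real.sqrt_le_sqrt (hue n).le
  have l2 : Tendsto (fun n => energy2 (lap (v n)) (lap (v n))) atTop (𝓝 (hcov (dr d) g g)) := by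
    refine D2_lim (D2_hcov hd hg) (fun n => energy2_nonneg (hv n).ne_lap) fun n => ?_
    refine (sweep_energy hD hg (hv n) (hvs n)).trans ?_
    rw [← hsq n]
    exact Real.sqrt_le_sqrt (hve n).le
  have hb : Tendsto (fun n => Real.exp (-(Kc hdl * (energy2 (lap (u n)) (lap (u n)) +
      energy2 (lap (v n)) (lap (v n))) / 2))) atTop
      (𝓝 (Real.exp (-(Kc hdl * (hcov (dr d) f f + hcov (dr d) g g) / 2)))) :=
    (Real.continuous_exp.tendsto _).comp ((((l1.add l2).const_mul (Kc hdl)).div_const 2).neg)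
  simp only [hr] at ha
  exact tendsto_nhds_unique ha hb

/-- `ev_sin_odd`: `Yc_odd`, and `Th (Yc g) (p, -h) = -Th (Yc g) (p, h)` (`GH.om_refl` with `reflD_lref`) for symmetric `p.2`; `LU_eq` for an eventually constant function -/
theorem sin_half (hd : DirZ d) {U : Ultrafilter (ℝ × Finset V)} (hU : (U : Filter (ℝ × Finset V)) ≤ sitf d)
    (f g : Pl → ℝ) : LU U (fun i => Real.sin (Yc d f i + Th d (Yc d g) i)) = 0 := by
  refine LU_eq (tendsto_const_nhds.congr' ?_)
  filter_upwards [hU (sitf_sym d)] with p hp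
  refine (ev_sin_odd (p := p) fun h hh => ?_).symm
  have h1 : (fun v => h (lref d 0 v)) ∈ Om p.2 := GH.om_refl (D := p.2) (reflD_lref hd) hp hh
  have h2 : Th d (Yc d g) (p, -h) = -Th d (Yc d g) (p, h) := Yc_odd g h1
  show Yc d f (p, -h) + Th d (Yc d g) (p, -h) = -(Yc d f (p, h) + Th d (Yc d g) (p, h))
  rw [Yc_odd f hh, h2]
  ring

end GF.Lat
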