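import Mathlib

/-!
GH (half planes), D3.  Two independent copies of a Gaussian vector (pure probability).
-/

open MeasureTheory Filter Topology ProbabilityTheory

namespace GH

/-- first block -/
noncomputable def bl1 {m : ℕ} (x : EuclideanSpace ℝ (Fin (m + m))) : EuclideanSpace ℝ (Fin m) :=
  WithLp.toLp 2 fun j => x (Fin.castAdd m j)

/-- second block -/
noncomputable def bl2 {m : ℕ} (x : EuclideanSpace ℝ (Fin (m + m))) : EuclideanSpace ℝ (Fin m) :=
  WithLp.toLp 2 fun j => x (Fin.natAdd m j)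

private theorem D3b_exp {m : ℕ} (ν : Measure (EuclideanSpace ℝ (Fin (m + m)))) [IsProbabilityMeasure ν]
    (L : EuclideanSpace ℝ (Fin (m + m)) → ℝ) (hL : Continuous L) (q : ℝ)
    (h1 : ∫ x, Real.cos (L x) ∂ν = Real.exp q) (h2 : ∫ x, Real.sin (L x) ∂ν = 0) :
    ∫ x, Complex.exp ((L x : ℂ) * Complex.I) ∂ν = ((Real.exp q : ℝ) : ℂ) := by
  have hint : Integrable (fun x => Complex.exp (((L x : ℝ) : ℂ) * Complex.I)) ν := by
    refine Integrable.of_bound (C := 1) ?_ (Eventually.of_forall fun x => ?_)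
    · refine Continuous.aestronglyMeasurable ?_
      exact Complex.continuous_exp.comp
        ((Complex.continuous_ofReal.comp hL).mul continuous_const)
    · rw [Complex.norm_exp_ofReal_mul_I]
  apply Complex.ext
  · have h4 := integral_re hint
    simp only [RCLike.re_to_complex] at h4
    rw [← h4]
    simp only [Complex.exp_ofReal_mul_I_re]
    rw [h1, Complex.ofReal_re]
  · have h4 := integral_im hint
    simp only [RCLike.im_to_complex] at h4
    rw [← h4]
    simp only [Complex.exp_ofReal_mul_I_im]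
    rw [h2, Complex.ofReal_im]

private theorem D3b_cont1 {m : ℕ} : Continuous (bl1 (m := m)) := by
  unfold bl1
  fun_prop

private theorem D3b_cont2 {m : ℕ} : Continuous (bl2 (m := m)) := by
  unfold bl2
  fun_prop

private theorem D3b_in1 {m : ℕ} (x : EuclideanSpace ℝ (Fin (m + m))) (t : EuclideanSpace ℝ (Fin m)) :
    inner ℝ (bl1 x) t = ∑ j, t j * x (Fin.castAdd m j) := by
  simp [PiLp.inner_apply, bl1]

private theorem D3b_in2 {m : ℕ} (x : EuclideanSpace ℝ (Fin (m + m))) (t : EuclideanSpace ℝ (Fin m)) :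
    inner ℝ (bl2 x) t = ∑ j, t j * x (Fin.natAdd m j) := by
  simp [PiLp.inner_apply, bl2]

private theorem D3b_cs {m : ℕ} {t s : Fin m → ℝ} :
    Continuous fun x : EuclideanSpace ℝ (Fin (m + m)) =>
      (∑ j, t j * x (Fin.castAdd m j)) + ∑ j, s j * x (Fin.natAdd m j) := by
  fun_prop

private theorem D3b_gauss {m : ℕ} (C : Matrix (Fin m) (Fin m) ℝ) (hC : C.PosSemidef)
    (t : EuclideanSpace ℝ (Fin m)) : charFun (multivariateGaussian 0 C) t =
      ((Real.exp (-(∑ i, ∑ j, t i * t j * C i j) / 2) : ℝ) : ℂ) := by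
  rw [charFun_multivariateGaussian hC, Complex.ofReal_exp]
  congr 1
  have h3 : t.ofLp ⬝ᵥ C.mulVec t.ofLp = ∑ i, ∑ j, t i * t j * C i j := by
    simp only [dotProduct, Matrix.mulVec]
    refine Finset.sum_congr rfl fun i _ => ?_
    rw [Finset.mul_sum]
    refine Finset.sum_congr rfl fun j _ => ?_
    ring
  rw [h3, inner_zero_right]
  push_cast
  ring

private theorem D3b_cf1 {m : ℕ} (ν : Measure (EuclideanSpace ℝ (Fin (m + m)))) [IsProbabilityMeasure ν]
    (C : Matrix (Fin m) (Fin m) ℝ)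
    (hc : ∀ t s : Fin m → ℝ, ∫ x, Real.cos ((∑ j, t j * x (Fin.castAdd m j)) + ∑ j, s j * x (Fin.natAdd m j)) ∂ν =
      Real.exp (-((∑ i, ∑ j, t i * t j * C i j) + ∑ i, ∑ j, s i * s j * C i j) / 2))
    (hs : ∀ t s : Fin m → ℝ, ∫ x, Real.sin ((∑ j, t j * x (Fin.castAdd m j)) + ∑ j, s j * x (Fin.natAdd m j)) ∂ν = 0)
    (t : EuclideanSpace ℝ (Fin m)) : charFun (ν.map bl1) t =
      ((Real.exp (-(∑ i, ∑ j, t i * t j * C i j) / 2) : ℝ) : ℂ) := by
  rw [charFun_apply, integral_map D3b_cont1.aemeasurable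
    (Continuous.aestronglyMeasurable (by fun_prop))]
  have h := D3b_exp ν _ D3b_cs _ (hc t 0) (hs t 0)
  simp only [Pi.zero_apply, zero_mul, Finset.sum_const_zero, add_zero] at h
  simp only [D3b_in1]
  exact h

private theorem D3b_cf2 {m : ℕ} (ν : Measure (EuclideanSpace ℝ (Fin (m + m)))) [IsProbabilityMeasure ν]
    (C : Matrix (Fin m) (Fin m) ℝ)
    (hc : ∀ t s : Fin m → ℝ, ∫ x, Real.cos ((∑ j, t j * x (Fin.castAdd m j)) + ∑ j, s j * x (Fin.natAdd m j)) ∂ν =
      Real.exp (-((∑ i, ∑ j, t i * t j * C i j) + ∑ i, ∑ j, s i * s j * C i j) / 2))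
    (hs : ∀ t s : Fin m → ℝ, ∫ x, Real.sin ((∑ j, t j * x (Fin.castAdd m j)) + ∑ j, s j * x (Fin.natAdd m j)) ∂ν = 0)
    (t : EuclideanSpace ℝ (Fin m)) : charFun (ν.map bl2) t =
      ((Real.exp (-(∑ i, ∑ j, t i * t j * C i j) / 2) : ℝ) : ℂ) := by
  rw [charFun_apply, integral_map D3b_cont2.aemeasurable
    (Continuous.aestronglyMeasurable (by fun_prop))]
  have h := D3b_exp ν _ D3b_cs _ (hc 0 t) (hs 0 t)
  simp only [Pi.zero_apply, zero_mul, Finset.sum_const_zero, zero_add] at h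
  simp only [D3b_in2]
  exact h

/-
`charFun (ν.map bl1) t = ∫ exp (i ∑ t_j x_j)`: with `s = 0` in `hc`, `hs`, it is `exp (-(1/2) t·C t)`, so `ν.map bl1 = multivariateGaussian 0 C` (`Measure.ext_of_charFun`, `charFun_multivariateGaussian`; compare
the proof of `law_gauss_poly` in Helper34/GF/F1.lean), the same for `bl2`; `indepFun_iff_charFun_prod` (Mathlib.Probability.Independence.CharacteristicFunction): `bl1`, `bl2` are independent under `ν`;
`IndepFun.integral_mul` type theorem for `φ ∘ bl1`, `ψ ∘ bl2` (`IndepFun.comp`), `integral_map`.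
-/
theorem two_copies {m : ℕ} (ν : Measure (EuclideanSpace ℝ (Fin (m + m)))) [IsProbabilityMeasure ν]
    (C : Matrix (Fin m) (Fin m) ℝ) (hC : C.PosSemidef)
    (hc : ∀ t s : Fin m → ℝ, ∫ x, Real.cos ((∑ j, t j * x (Fin.castAdd m j)) + ∑ j, s j * x (Fin.natAdd m j)) ∂ν =
      Real.exp (-((∑ i, ∑ j, t i * t j * C i j) + ∑ i, ∑ j, s i * s j * C i j) / 2))
    (hs : ∀ t s : Fin m → ℝ, ∫ x, Real.sin ((∑ j, t j * x (Fin.castAdd m j)) + ∑ j, s j * x (Fin.natAdd m j)) ∂ν = 0)
    (φ ψ : EuclideanSpace ℝ (Fin m) → ℝ) (hφ : Continuous φ) (hψ : Continuous ψ) :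
    ∫ x, φ (bl1 x) * ψ (bl2 x) ∂ν =
      (∫ x, φ x ∂(multivariateGaussian 0 C)) * ∫ x, ψ x ∂(multivariateGaussian 0 C) := by
  have k1 : ν.map bl1 = multivariateGaussian 0 C := by
    have : IsProbabilityMeasure (ν.map (bl1 (m := m))) :=
      Measure.isProbabilityMeasure_map D3b_cont1.aemeasurable
    refine Measure.ext_of_charFun (funext fun t => ?_)
    rw [D3b_cf1 ν C hc hs, D3b_gauss C hC]
  have k2 : ν.map bl2 = multivariateGaussian 0 C := by
    have : IsProbabilityMeasure (ν.map (bl2 (m := m))) :=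
      Measure.isProbabilityMeasure_map D3b_cont2.aemeasurable
    refine Measure.ext_of_charFun (funext fun t => ?_)
    rw [D3b_cf2 ν C hc hs, D3b_gauss C hC]
  have ind : IndepFun (bl1 (m := m)) bl2 ν := by
    rw [indepFun_iff_charFun_prod D3b_cont1.aemeasurable D3b_cont2.aemeasurable]
    intro t
    rw [D3b_cf1 ν C hc hs, D3b_cf2 ν C hc hs, charFun_apply, integral_map
      (Continuous.aemeasurable (by
        have := D3b_cont1 (m := m)
        have := D3b_cont2 (m := m)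
        fun_prop)) (Continuous.aestronglyMeasurable (by fun_prop)), ← Complex.ofReal_mul,
      ← Real.exp_add]
    have h := D3b_exp ν _ D3b_cs _ (hc t.fst t.snd) (hs t.fst t.snd)
    simp only [WithLp.prod_inner_apply, D3b_in1, D3b_in2]
    refine h.trans ?_
    congr 2
    change -((∑ i, ∑ j, t.ofLp.1 i * t.ofLp.1 j * C i j) + ∑ i, ∑ j, t.ofLp.2 i * t.ofLp.2 j * C i j) / 2 = _
    ring
  rw [ind.integral_fun_comp_mul_comp D3b_cont1.aemeasurable D3b_cont2.aemeasurable
    hφ.aestronglyMeasurable hψ.aestronglyMeasurable]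
  have e1 : ∫ x, φ x ∂(ν.map bl1) = ∫ x, φ (bl1 x) ∂ν :=
    integral_map D3b_cont1.aemeasurable hφ.aestronglyMeasurable
  have e2 : ∫ x, ψ x ∂(ν.map bl2) = ∫ x, ψ (bl2 x) ∂ν :=
    integral_map D3b_cont2.aemeasurable hψ.aestronglyMeasurable
  rw [k1] at e1
  rw [k2] at e2
  rw [e1, e2]

/-- the laws of the blocks are Gaussian -/
theorem one_copy {m : ℕ} (ν : Measure (EuclideanSpace ℝ (Fin (m + m)))) [IsProbabilityMeasure ν]
    (C : Matrix (Fin m) (Fin m) ℝ) (hC : C.PosSemidef)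
    (hc : ∀ t s : Fin m → ℝ, ∫ x, Real.cos ((∑ j, t j * x (Fin.castAdd m j)) + ∑ j, s j * x (Fin.natAdd m j)) ∂ν =
      Real.exp (-((∑ i, ∑ j, t i * t j * C i j) + ∑ i, ∑ j, s i * s j * C i j) / 2))
    (hs : ∀ t s : Fin m → ℝ, ∫ x, Real.sin ((∑ j, t j * x (Fin.castAdd m j)) + ∑ j, s j * x (Fin.natAdd m j)) ∂ν = 0) :
    ν.map bl1 = multivariateGaussian 0 C := by
  have : IsProbabilityMeasure (ν.map (bl1 (m := m))) :=
    Measure.isProbabilityMeasure_map D3b_cont1.aemeasurable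
  refine Measure.ext_of_charFun (funext fun t => ?_)
  rw [D3b_cf1 ν C hc hs, D3b_gauss C hC]

end GH
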