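import Pool.Agent.Helper34.GH.D2
import Pool.Agent.Helper34.GH.D3

/-!
GH (half planes), D4.  Joint laws and the conditional law.
-/

open MeasureTheory Filter Topology ProbabilityTheory

namespace GF.Lat

open RP4 (V avg Om dom Deloc wt)

variable {d : ℤ × ℤ} {m : ℕ}

/-- the covariance matrix of the Dirichlet field of the half plane -/
noncomputable def hgram (K : ℝ) (d : Pl) (f : Fin m → Pl → ℝ) : Matrix (Fin m) (Fin m) ℝ :=
  Matrix.of fun i j => K * hcov d (f i) (f j)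

private lemma D4a_cc (f : Fin m → Pl → ℝ) (hf : ∀ j, Cc (f j)) (t : Fin m → ℝ) (s : Finset (Fin m)) :
    Cc (fun z => ∑ j ∈ s, t j * f j z) :=
  Cc.sum s (fun j z => t j * f j z) fun j _ => (hf j).smul (t j)

private lemma D4a_left (f : Fin m → Pl → ℝ) (hf : ∀ j, Cc (f j)) (t : Fin m → ℝ) {g : Pl → ℝ} (hg : Cc g)
    (s : Finset (Fin m)) :
    energy2 (fun z => ∑ j ∈ s, t j * f j z) g = ∑ j ∈ s, t j * energy2 (f j) g := by
  classical
  induction s using Finset.induction_on with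
  | empty => simp [energy2]
  | insert a s ha ih =>
    simp only [Finset.sum_insert ha]
    rw [energy2_add_left ((hf a).smul (t a)) (D4a_cc f hf t s) hg, energy2_smul_left, ih]

private lemma D4a_right (f : Fin m → Pl → ℝ) (hf : ∀ j, Cc (f j)) (t : Fin m → ℝ) {g : Pl → ℝ} (hg : Cc g)
    (s : Finset (Fin m)) :
    energy2 g (fun z => ∑ j ∈ s, t j * f j z) = ∑ j ∈ s, t j * energy2 g (f j) := by
  rw [energy2_symm hg (D4a_cc f hf t s), D4a_left f hf t hg s]
  exact Finset.sum_congr rfl fun j _ => by rw [energy2_symm (hf j) hg]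

/-- bilinearity of `energy2` and of `rf` -/
theorem hcov_comb (d : ℤ × ℤ) (hd : DirZ d) (f : Fin m → Pl → ℝ) (hf : ∀ j, Cc (f j)) (t : Fin m → ℝ) :
    hcov (dr d) (fun z => ∑ j, t j * f j z) (fun z => ∑ j, t j * f j z) =
      ∑ i, ∑ j, t i * t j * hcov (dr d) (f i) (f j) := by
  have hS : Cc (fun z => ∑ j, t j * f j z) := D4a_cc f hf t Finset.univ
  have hr : ∀ j, Cc (rf (dr d) 0 (f j)) := fun j => (hf j).rf (dr_dir hd) 0
  have h1 : rf (dr d) 0 (fun z => ∑ j, t j * f j z) = fun z => ∑ j, t j * rf (dr d) 0 (f j) z := rfl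
  have hR : Cc (fun z => ∑ j, t j * rf (dr d) 0 (f j) z) := D4a_cc _ hr t Finset.univ
  unfold hcov
  rw [h1, D4a_left f hf t hS Finset.univ, D4a_left f hf t hR Finset.univ, ← Finset.sum_sub_distrib]
  refine Finset.sum_congr rfl fun i _ => ?_
  rw [D4a_right f hf t (hf i) Finset.univ, D4a_right _ hr t (hf i) Finset.univ, Finset.mul_sum,
    Finset.mul_sum, ← Finset.sum_sub_distrib]
  exact Finset.sum_congr rfl fun j _ => by ring

private lemma D4a_symm (hd : DirZ d) {f g : Pl → ℝ} (hf : Cc f) (hg : Cc g) :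
    hcov (dr d) f g = hcov (dr d) g f := by
  have hD := dr_dir hd
  unfold hcov
  rw [energy2_symm hf hg]
  congr 1
  rw [← energy2_rf hD 0 f (rf (dr d) 0 g), rf_rf hD, energy2_symm (hf.rf hD 0) hg]

/-- `hcov` is symmetric (`energy2_symm`, `energy2_rf`, `rf_rf`) and `hcov F F ≥ 0` (`energy_odd`, `energy2_nonneg`, `ne_sub_rf`); `hcov_comb`, `0 ≤ K` -/
theorem hgram_psd (hd : DirZ d) {K : ℝ} (hK : 0 ≤ K) (f : Fin m → Pl → ℝ) (hf : ∀ j, Cc (f j)) :
    (hgram K (dr d) f).PosSemidef := by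
  refine ⟨?_, fun x => ?_⟩
  · ext i j
    simp only [Matrix.conjTranspose_apply, hgram, Matrix.of_apply, star_trivial]
    rw [D4a_symm hd (hf j) (hf i)]
  · have hS : Cc (fun z => ∑ j, x j * f j z) := D4a_cc f hf (fun j => x j) Finset.univ
    have h0 : 0 ≤ hcov (dr d) (fun z => ∑ j, x j * f j z) (fun z => ∑ j, x j * f j z) := by
      have h1 := energy_odd (dr_dir hd) hS
      have h2 := energy2_nonneg (GF.ne_sub_rf (dr_dir hd) 0 hS)
      rw [h1] at h2
      unfold hcov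
      linarith
    have h1 := mul_nonneg hK h0
    rw [hcov_comb d hd f hf (fun j => x j)] at h1
    rw [Finsupp.sum_fintype _ _ (fun i => by simp)]
    refine h1.trans (le_of_eq ?_)
    rw [Finset.mul_sum]
    refine Finset.sum_congr rfl fun i _ => ?_
    rw [Finsupp.sum_fintype _ _ (fun j => by simp), Finset.mul_sum]
    refine Finset.sum_congr rfl fun j _ => ?_
    simp only [hgram, Matrix.of_apply, star_trivial]
    ring

/-- the vector of the pairings minus their conditional means -/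
noncomputable def YcV (d : ℤ × ℤ) (f : Fin m → Pl → ℝ) (i : Ix) : EuclideanSpace ℝ (Fin m) :=
  WithLp.toLp 2 fun j => Yc d (f j) i

private lemma D4b_zero (i : Ix) : Yc d (fun _ => (0 : ℝ)) i = 0 := by
  have h := Yc_smul (d := d) 0 (fun _ => (0 : ℝ)) i
  simpa using h

private lemma D4b_sum (f : Fin m → Pl → ℝ) (t : Fin m → ℝ) (s : Finset (Fin m)) (i : Ix) :
    ∑ j ∈ s, t j * Yc d (f j) i = Yc d (fun z => ∑ j ∈ s, t j * f j z) i := by
  classical
  induction s using Finset.induction_on with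
  | empty =>
    simp only [Finset.sum_empty]
    exact (D4b_zero i).symm
  | insert a s ha ih =>
    simp only [Finset.sum_insert ha]
    rw [Yc_add, ih, Yc_smul]

private lemma D4b_supp (f : Fin m → Pl → ℝ) (hfs : ∀ j, tsupport (f j) ⊆ {z | 0 < ell (dr d) z})
    (t : Fin m → ℝ) : tsupport (fun z => ∑ j, t j * f j z) ⊆ {z | 0 < ell (dr d) z} := by
  have h1 : tsupport (fun z => ∑ j, t j * f j z) ⊆ ⋃ j, tsupport (f j) := by
    refine closure_minimal (fun z hz => ?_) (isClosed_iUnion_of_finite fun j => isClosed_tsupport _)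
    rw [Set.mem_iUnion]
    by_contra hcon
    push Not at hcon
    refine hz (Finset.sum_eq_zero fun j _ => ?_)
    rw [image_eq_zero_of_notMem_tsupport (hcon j), mul_zero]
  exact h1.trans (Set.iUnion_subset hfs)

private lemma D4b_n1 (x : EuclideanSpace ℝ (Fin (m + m))) : ‖GH.bl1 x‖ ≤ ‖x‖ := by
  rw [EuclideanSpace.norm_eq, EuclideanSpace.norm_eq, Fin.sum_univ_add]
  refine Real.sqrt_le_sqrt ?_
  have h : (0 : ℝ) ≤ ∑ j : Fin m, ‖x (Fin.natAdd m j)‖ ^ 2 :=
    Finset.sum_nonneg fun j _ => sq_nonneg _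
  change ∑ j : Fin m, ‖x (Fin.castAdd m j)‖ ^ 2 ≤ _
  linarith

private lemma D4b_n2 (x : EuclideanSpace ℝ (Fin (m + m))) : ‖GH.bl2 x‖ ≤ ‖x‖ := by
  rw [EuclideanSpace.norm_eq, EuclideanSpace.norm_eq, Fin.sum_univ_add]
  refine Real.sqrt_le_sqrt ?_
  have h : (0 : ℝ) ≤ ∑ j : Fin m, ‖x (Fin.castAdd m j)‖ ^ 2 :=
    Finset.sum_nonneg fun j _ => sq_nonneg _
  change ∑ j : Fin m, ‖x (Fin.natAdd m j)‖ ^ 2 ≤ _
  linarith

private lemma D4b_c1 : Continuous (GH.bl1 (m := m)) := by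
  unfold GH.bl1
  fun_prop

private lemma D4b_c2 : Continuous (GH.bl2 (m := m)) := by
  unfold GH.bl2
  fun_prop

private lemma D4b_growth {χ : EuclideanSpace ℝ (Fin m) → ℝ}
    (hg : ∃ (C : ℝ) (k : ℕ), ∀ x, |χ x| ≤ C * (1 + ‖x‖) ^ k) :
    ∃ (C : ℝ) (k : ℕ), 0 ≤ C ∧ (∀ x : EuclideanSpace ℝ (Fin (m + m)), |χ (GH.bl1 x)| ≤ C * (1 + ‖x‖) ^ k) ∧
      ∀ x : EuclideanSpace ℝ (Fin (m + m)), |χ (GH.bl2 x)| ≤ C * (1 + ‖x‖) ^ k := by
  obtain ⟨C, k, h⟩ := hg
  have hC : 0 ≤ C := by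
    have := (abs_nonneg _).trans (h 0)
    simpa using this
  refine ⟨C, k, hC, fun x => (h _).trans ?_, fun x => (h _).trans ?_⟩
  · exact mul_le_mul_of_nonneg_left
      (pow_le_pow_left₀ (by positivity) (by linarith [D4b_n1 x]) k) hC
  · exact mul_le_mul_of_nonneg_left
      (pow_le_pow_left₀ (by positivity) (by linarith [D4b_n2 x]) k) hC

/-- the observables of the two blocks -/
private noncomputable def D4b_W (d : ℤ × ℤ) (f : Fin m → Pl → ℝ) : Fin (m + m) → Ix → ℝ :=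
  Fin.append (fun j => Yc d (f j)) (fun j => Th d (Yc d (f j)))

private lemma D4b_W1 (f : Fin m → Pl → ℝ) (j : Fin m) : D4b_W d f (Fin.castAdd m j) = Yc d (f j) := by
  unfold D4b_W
  rw [Fin.append_left]

private lemma D4b_W2 (f : Fin m → Pl → ℝ) (j : Fin m) : D4b_W d f (Fin.natAdd m j) = Th d (Yc d (f j)) := by
  unfold D4b_W
  rw [Fin.append_right]

private lemma D4b_b1 (f : Fin m → Pl → ℝ) (i : Ix) : GH.bl1 (vec (D4b_W d f) i) = YcV d f i := by
  unfold GH.bl1 YcV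
  congr 1
  funext j
  change D4b_W d f (Fin.castAdd m j) i = _
  rw [D4b_W1]

private lemma D4b_b2 (f : Fin m → Pl → ℝ) (i : Ix) :
    GH.bl2 (vec (D4b_W d f) i) = YcV d f (i.1, fun v => i.2 (lref d 0 v)) := by
  unfold GH.bl2 YcV
  congr 1
  funext j
  change D4b_W d f (Fin.natAdd m j) i = _
  rw [D4b_W2]
  rfl

private lemma D4b_comb (f : Fin m → Pl → ℝ) (t s : Fin m → ℝ) (i : Ix) :
    (∑ j, t j * (vec (D4b_W d f) i) (Fin.castAdd m j)) + ∑ j, s j * (vec (D4b_W d f) i) (Fin.natAdd m j) =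
      Yc d (fun z => ∑ j, t j * f j z) i + Th d (Yc d (fun z => ∑ j, s j * f j z)) i := by
  have h1 : ∀ j, (vec (D4b_W d f) i) (Fin.castAdd m j) = Yc d (f j) i := by
    intro j
    change D4b_W d f (Fin.castAdd m j) i = _
    rw [D4b_W1]
  have h2 : ∀ j, (vec (D4b_W d f) i) (Fin.natAdd m j) = Yc d (f j) (i.1, fun v => i.2 (lref d 0 v)) := by
    intro j
    change D4b_W d f (Fin.natAdd m j) i = _
    rw [D4b_W2]
    rfl
  simp only [h1, h2]
  rw [D4b_sum f t Finset.univ i, D4b_sum f s Finset.univ (i.1, fun v => i.2 (lref d 0 v))]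
  rfl

/-
`exists_law` (Helper34/GF/N1c.lean) for `limU U _` and `W = Fin.append (fun j => Yc d (f j)) (fun j => Th d (Yc d (f j)))` (Ok: `Yc_ok`, `Th_ok`): `ν`.  Its cosine and sine transforms are those of `one_copy`, `two_copies`
with `C = hgram (Kc hdl) (dr d) f`: `∑ t_j Yc (f j) = Yc (∑ t_j f_j)` (`Yc_add`, `Yc_smul`, induction), the same for `Th`, `char_half`, `sin_half`, `hcov_comb`.  `φ (bl1 x) * ψ (bl2 x)` has polynomial growth.
-/
theorem law_half (hdl : Deloc) (hd : DirZ d) {U : Ultrafilter (ℝ × Finset V)} (hU : (U : Filter (ℝ × Finset V)) ≤ sitf d)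
    (f : Fin m → Pl → ℝ) (hf : ∀ j, Cc (f j)) (hfs : ∀ j, tsupport (f j) ⊆ {z | 0 < ell (dr d) z})
    (φ ψ : EuclideanSpace ℝ (Fin m) → ℝ) (hφ : Continuous φ) (hψ : Continuous ψ)
    (hgφ : ∃ (C : ℝ) (k : ℕ), ∀ x, |φ x| ≤ C * (1 + ‖x‖) ^ k) (hgψ : ∃ (C : ℝ) (k : ℕ), ∀ x, |ψ x| ≤ C * (1 + ‖x‖) ^ k) :
    Integrable φ (multivariateGaussian 0 (hgram (Kc hdl) (dr d) f)) ∧
    LU U (fun i => φ (YcV d f i)) = ∫ x, φ x ∂(multivariateGaussian 0 (hgram (Kc hdl) (dr d) f)) ∧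
    LU U (fun i => φ (YcV d f i) * ψ (YcV d f (i.1, fun v => i.2 (lref d 0 v)))) =
      (∫ x, φ x ∂(multivariateGaussian 0 (hgram (Kc hdl) (dr d) f))) *
        ∫ x, ψ x ∂(multivariateGaussian 0 (hgram (Kc hdl) (dr d) f)) := by
  have hU' : (U : Filter (ℝ × Finset V)) ≤ itf := hU.trans (sitf_le d)
  have hW : ∀ j, (limU U hU').Ok (D4b_W d f j) := by
    intro j
    refine Fin.addCases (fun j => ?_) (fun j => ?_) j
    · rw [D4b_W1]
      exact Yc_ok hdl hd hU' (hf j)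
    · rw [D4b_W2]
      exact Th_ok hd hU (Yc_ok hdl hd hU' (hf j))
  obtain ⟨ν, hν, hE⟩ := exists_law (limU U hU') (D4b_W d f) hW
  have hC := hgram_psd hd (Kc_nonneg hdl) f hf
  have hcont : ∀ t s : Fin m → ℝ, Continuous fun x : EuclideanSpace ℝ (Fin (m + m)) =>
      (∑ j, t j * x (Fin.castAdd m j)) + ∑ j, s j * x (Fin.natAdd m j) := by
    intro t s
    fun_prop
  have hcc : ∀ t : Fin m → ℝ, Cc (fun z => ∑ j, t j * f j z) := fun t => D4a_cc f hf t Finset.univ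
  have hq : ∀ t : Fin m → ℝ, Kc hdl * hcov (dr d) (fun z => ∑ j, t j * f j z) (fun z => ∑ j, t j * f j z) =
      ∑ i, ∑ j, t i * t j * hgram (Kc hdl) (dr d) f i j := by
    intro t
    rw [hcov_comb d hd f hf t, Finset.mul_sum]
    refine Finset.sum_congr rfl fun i _ => ?_
    rw [Finset.mul_sum]
    refine Finset.sum_congr rfl fun j _ => ?_
    simp only [hgram, Matrix.of_apply]
    ring
  have hc : ∀ t s : Fin m → ℝ,
      ∫ x, Real.cos ((∑ j, t j * x (Fin.castAdd m j)) + ∑ j, s j * x (Fin.natAdd m j)) ∂ν =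
      Real.exp (-((∑ i, ∑ j, t i * t j * hgram (Kc hdl) (dr d) f i j) +
        ∑ i, ∑ j, s i * s j * hgram (Kc hdl) (dr d) f i j) / 2) := by
    intro t s
    have h1 := (hE (fun x => Real.cos ((∑ j, t j * x (Fin.castAdd m j)) + ∑ j, s j * x (Fin.natAdd m j)))
      (Real.continuous_cos.comp (hcont t s)) ⟨1, 0, fun x => by simpa using Real.abs_cos_le_one _⟩).2
    simp only [D4b_comb] at h1
    rw [← h1, ← hq t, ← hq s]
    refine (char_half hdl hd hU (hcc t) (D4b_supp f hfs t) (hcc s) (D4b_supp f hfs s)).trans ?_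
    congr 1
    ring
  have hs : ∀ t s : Fin m → ℝ,
      ∫ x, Real.sin ((∑ j, t j * x (Fin.castAdd m j)) + ∑ j, s j * x (Fin.natAdd m j)) ∂ν = 0 := by
    intro t s
    have h1 := (hE (fun x => Real.sin ((∑ j, t j * x (Fin.castAdd m j)) + ∑ j, s j * x (Fin.natAdd m j)))
      (Real.continuous_sin.comp (hcont t s)) ⟨1, 0, fun x => by simpa using Real.abs_sin_le_one _⟩).2
    simp only [D4b_comb] at h1
    rw [← h1]
    exact sin_half hd hU _ _
  have k1 : ν.map GH.bl1 = multivariateGaussian 0 (hgram (Kc hdl) (dr d) f) := GH.one_copy ν _ hC hc hs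
  obtain ⟨C₁, k₁, hC₁, hg1, -⟩ := D4b_growth hgφ
  obtain ⟨C₂, k₂, hC₂, -, hg2⟩ := D4b_growth hgψ
  have e1 := hE (fun x => φ (GH.bl1 x)) (hφ.comp D4b_c1) ⟨C₁, k₁, hg1⟩
  have e2 := hE (fun x => φ (GH.bl1 x) * ψ (GH.bl2 x)) ((hφ.comp D4b_c1).mul (hψ.comp D4b_c2))
    ⟨C₁ * C₂, k₁ + k₂, fun x => by
      rw [abs_mul]
      calc |φ (GH.bl1 x)| * |ψ (GH.bl2 x)| ≤ (C₁ * (1 + ‖x‖) ^ k₁) * (C₂ * (1 + ‖x‖) ^ k₂) :=
            mul_le_mul (hg1 x) (hg2 x) (abs_nonneg _) (by positivity)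
        _ = C₁ * C₂ * (1 + ‖x‖) ^ (k₁ + k₂) := by
            rw [pow_add]
            ring⟩
  simp only [D4b_b1, D4b_b2] at e1 e2
  refine ⟨?_, ?_, ?_⟩
  · rw [← k1]
    exact (integrable_map_measure hφ.aestronglyMeasurable D4b_c1.aemeasurable).2 e1.1
  · rw [← k1, integral_map D4b_c1.aemeasurable hφ.aestronglyMeasurable]
    exact e1.2
  · rw [← GH.two_copies ν _ hC hc hs φ ψ hφ hψ]
    exact e2.2

/-
Ultrafilter criterion.  `A = φ ∘ YcV` is Ok (`ok_poly`, `Yc_ok`) and depends on the upper half plane (`Yc_upp`).  With `c = ∫ φ`: `ev (Cd A - c)² = ev (Cd A)² - 2 c ev (Cd A) + c²` and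
`ev (Cd A)² = ev (A * Th A)` (`ev_Cd_sq`), `ev (Cd A) = ev A` (`ev_Cd`), so the limit along `U` is `c² - 2 c² + c² = 0` (`law_half` with `ψ = φ`; `ev_const`).
-/
theorem half_law (hdl : Deloc) (hd : DirZ d) (f : Fin m → Pl → ℝ) (hf : ∀ j, Cc (f j))
    (hfs : ∀ j, tsupport (f j) ⊆ {z | 0 < ell (dr d) z}) (φ : EuclideanSpace ℝ (Fin m) → ℝ) (hφ : Continuous φ)
    (hgφ : ∃ (C : ℝ) (k : ℕ), ∀ x, |φ x| ≤ C * (1 + ‖x‖) ^ k) :
    Tendsto (fun p : ℝ × Finset V => ev p (fun i => (Cd d (fun k => φ (YcV d f k)) i -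
      ∫ x, φ x ∂(multivariateGaussian 0 (hgram (Kc hdl) (dr d) f))) ^ 2)) (sitf d) (𝓝 0) := by
  rw [tendsto_iff_ultrafilter]
  intro U hU
  obtain ⟨C, k, hCk⟩ := hgφ
  obtain ⟨-, h1, h2⟩ := law_half hdl hd hU f hf hfs φ φ hφ hφ ⟨C, k, hCk⟩ ⟨C, k, hCk⟩
  generalize (∫ x, φ x ∂(multivariateGaussian 0 (hgram (Kc hdl) (dr d) f))) = c at h1 h2 ⊢
  have hU' : (U : Filter (ℝ × Finset V)) ≤ itf := hU.trans (sitf_le d)
  have hok : OkU (U : Filter (ℝ × Finset V)) (fun i => φ (YcV d f i)) :=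
    ok_growth (limU U hU') (fun j => Yc d (f j)) (fun j => Yc_ok hdl hd hU' (hf j)) φ C k hCk
  have hokT : OkU (U : Filter (ℝ × Finset V)) (Th d (fun i => φ (YcV d f i))) := Th_ok hd hU hok
  have t1 : Tendsto (fun p => ev p (fun i => φ (YcV d f i))) U (𝓝 c) := by
    have h := LU_tendsto hok
    rwa [h1] at h
  have t2 : Tendsto (fun p => ev p (fun i => φ (YcV d f i) * Th d (fun i => φ (YcV d f i)) i)) U
      (𝓝 (c * c)) := by
    have h := LU_tendsto (hok.mul hokT)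
    have h3 : LU (U : Filter (ℝ × Finset V))
        (fun i => φ (YcV d f i) * Th d (fun i => φ (YcV d f i)) i) = c * c := h2
    rwa [h3] at h
  have t3 : Tendsto (fun p => ev p (fun i => φ (YcV d f i) * Th d (fun i => φ (YcV d f i)) i) +
      (-2 * c) * ev p (fun i => φ (YcV d f i)) + c ^ 2) U (𝓝 0) := by
    have h := (t2.add (t1.const_mul (-2 * c))).add_const (c ^ 2)
    have e : c * c + -2 * c * c + c ^ 2 = 0 := by ring
    rwa [e] at h
  refine t3.congr' ?_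
  filter_upwards [hU (sitf_sym d), hU' itf_nonempty, hU' itf_pos] with p hs hn hp
  have hupp : UppAt d p (fun i => φ (YcV d f i)) := by
    intro g hg g' hg' h
    have e : YcV d f (p, g) = YcV d f (p, g') := by
      unfold YcV
      congr 1
      funext j
      exact Yc_upp hd (hfs j) hp g hg g' hg' h
    simp only [e]
  have e1 := ev_Cd_sq hd hs hupp
  have e2 : ev p (Cd d (fun i => φ (YcV d f i))) = ev p (fun i => φ (YcV d f i)) := ev_Cd _
  rw [← e1, ← e2, ← ev_const hn (c ^ 2), ← ev_smul, ← ev_add, ← ev_add]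
  exact ev_congr p fun g _ => by ring

end GF.Lat
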