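import Pool.Agent.Helper34.GF.EF
import Pool.Agent.Helper27.GF.Cal2
import Pool.Agent.Helper97.EN.Glue

/-!
GH (half planes), E1.  Reflections and the energy form.
-/

open MeasureTheory Filter Topology

namespace GF

/-- reflections are isometries (`|refl z - refl w| = |z - w|`, case by case) which preserve the measure (`refl_mp`, as in `int_rf`): change of variables in both
integrals of `energy2` -/
theorem energy2_rf {d : Pl} (hd : Dir d) (s : ℝ) (f g : Pl → ℝ) : energy2 (rf d s f) (rf d s g) = energy2 f g := by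
  have key : ∀ x y : Pl, ((refl d s x).1 - (refl d s y).1) ^ 2 + ((refl d s x).2 - (refl d s y).2) ^ 2 =
      (x.1 - y.1) ^ 2 + (x.2 - y.2) ^ 2 := by
    intro x y
    rcases hd with rfl | rfl | rfl | rfl | rfl | rfl | rfl | rfl <;>
      (simp only [ell, refl]; ring)
  unfold energy2
  have h1 : ∀ x : Pl, (∫ y : Pl, rf d s f x * rf d s g y *
      (-(1 / (2 * Real.pi)) * Real.log (Real.sqrt ((x.1 - y.1) ^ 2 + (x.2 - y.2) ^ 2)))) =
      rf d s (fun x' => ∫ y : Pl, f x' * g y *
        (-(1 / (2 * Real.pi)) * Real.log (Real.sqrt ((x'.1 - y.1) ^ 2 + (x'.2 - y.2) ^ 2)))) x := by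
    intro x
    have h2 := int_rf (fun y : Pl => f (refl d s x) * g y * (-(1 / (2 * Real.pi)) *
      Real.log (Real.sqrt (((refl d s x).1 - y.1) ^ 2 + ((refl d s x).2 - y.2) ^ 2)))) hd s
    refine Eq.trans (integral_congr_ae (Eventually.of_forall fun y => ?_)) h2
    simp only [rf]
    rw [key]
  rw [integral_congr_ae (Eventually.of_forall h1)]
  exact int_rf _ hd s

private lemma E1_dx_aff (a b p c e q : ℝ) {f : Pl → ℝ} (hf : ContDiff ℝ (⊤ : ℕ∞) f) (z : Pl) :
    dx (fun z : Pl => f (a * z.1 + b * z.2 + p, c * z.1 + e * z.2 + q)) z =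
      a * dx f (a * z.1 + b * z.2 + p, c * z.1 + e * z.2 + q) +
        c * dy f (a * z.1 + b * z.2 + p, c * z.1 + e * z.2 + q) := by
  set w : Pl := (a * z.1 + b * z.2 + p, c * z.1 + e * z.2 + q) with hw
  have h1 : HasFDerivAt f (fderiv ℝ f w) w := (hf.differentiable (by simp) w).hasFDerivAt
  have h2 : HasDerivAt (fun t : ℝ => ((a * t + b * z.2 + p, c * t + e * z.2 + q) : ℝ × ℝ))
      (a * 1, c * 1) z.1 :=
    ((((hasDerivAt_id z.1).const_mul a).add_const (b * z.2)).add_const p).prodMk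
      ((((hasDerivAt_id z.1).const_mul c).add_const (e * z.2)).add_const q)
  have h3 : HasDerivAt (fun t => f ((a * t + b * z.2 + p, c * t + e * z.2 + q) : ℝ × ℝ))
      (fderiv ℝ f w (a * 1, c * 1)) z.1 :=
    HasFDerivAt.comp_hasDerivAt
      (f := fun t : ℝ => ((a * t + b * z.2 + p, c * t + e * z.2 + q) : ℝ × ℝ)) z.1 h1 h2
  have hs : ContDiff ℝ (⊤ : ℕ∞)
      (fun z : Pl => f (a * z.1 + b * z.2 + p, c * z.1 + e * z.2 + q)) :=
    hf.comp ((((contDiff_const.mul contDiff_fst).add (contDiff_const.mul contDiff_snd)).add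
      contDiff_const).prodMk
      (((contDiff_const.mul contDiff_fst).add (contDiff_const.mul contDiff_snd)).add
      contDiff_const))
  rw [dx_eq_deriv hs, h3.deriv]
  have h4 : ((a * 1, c * 1) : ℝ × ℝ) = a • ((1, 0) : ℝ × ℝ) + c • ((0, 1) : ℝ × ℝ) := by
    simp
  rw [h4, map_add, map_smul, map_smul]
  unfold GF.dx GF.dy
  simp only [smul_eq_mul]

private lemma E1_dy_aff (a b p c e q : ℝ) {f : Pl → ℝ} (hf : ContDiff ℝ (⊤ : ℕ∞) f) (z : Pl) :
    dy (fun z : Pl => f (a * z.1 + b * z.2 + p, c * z.1 + e * z.2 + q)) z =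
      b * dx f (a * z.1 + b * z.2 + p, c * z.1 + e * z.2 + q) +
        e * dy f (a * z.1 + b * z.2 + p, c * z.1 + e * z.2 + q) := by
  set w : Pl := (a * z.1 + b * z.2 + p, c * z.1 + e * z.2 + q) with hw
  have h1 : HasFDerivAt f (fderiv ℝ f w) w := (hf.differentiable (by simp) w).hasFDerivAt
  have h2 : HasDerivAt (fun t : ℝ => ((a * z.1 + b * t + p, c * z.1 + e * t + q) : ℝ × ℝ))
      (b * 1, e * 1) z.2 :=
    ((((hasDerivAt_id z.2).const_mul b).const_add (a * z.1)).add_const p).prodMk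
      ((((hasDerivAt_id z.2).const_mul e).const_add (c * z.1)).add_const q)
  have h3 : HasDerivAt (fun t => f ((a * z.1 + b * t + p, c * z.1 + e * t + q) : ℝ × ℝ))
      (fderiv ℝ f w (b * 1, e * 1)) z.2 :=
    HasFDerivAt.comp_hasDerivAt
      (f := fun t : ℝ => ((a * z.1 + b * t + p, c * z.1 + e * t + q) : ℝ × ℝ)) z.2 h1 h2
  have hs : ContDiff ℝ (⊤ : ℕ∞)
      (fun z : Pl => f (a * z.1 + b * z.2 + p, c * z.1 + e * z.2 + q)) :=
    hf.comp ((((contDiff_const.mul contDiff_fst).add (contDiff_const.mul contDiff_snd)).add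
      contDiff_const).prodMk
      (((contDiff_const.mul contDiff_fst).add (contDiff_const.mul contDiff_snd)).add
      contDiff_const))
  rw [dy_eq_deriv hs, h3.deriv]
  have h4 : ((b * 1, e * 1) : ℝ × ℝ) = b • ((1, 0) : ℝ × ℝ) + e • ((0, 1) : ℝ × ℝ) := by
    simp
  rw [h4, map_add, map_smul, map_smul]
  unfold GF.dx GF.dy
  simp only [smul_eq_mul]

/-- the Laplacian commutes with the affine isometries `z ↦ A z + v`, `A` symmetric -/
private lemma E1_lap_aff (a b p c e q : ℝ) (h1 : a * a + b * b = 1) (h2 : c * c + e * e = 1)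
    (h3 : a * c + b * e = 0) {f : Pl → ℝ} (hf : ContDiff ℝ (⊤ : ℕ∞) f) (z : Pl) :
    lap (fun z : Pl => f (a * z.1 + b * z.2 + p, c * z.1 + e * z.2 + q)) z =
      lap f (a * z.1 + b * z.2 + p, c * z.1 + e * z.2 + q) := by
  have hm : ContDiff ℝ (⊤ : ℕ∞) (fun z : Pl => ((a * z.1 + b * z.2 + p, c * z.1 + e * z.2 + q) : ℝ × ℝ)) :=
    ((((contDiff_const.mul contDiff_fst).add (contDiff_const.mul contDiff_snd)).add
      contDiff_const).prodMk
      (((contDiff_const.mul contDiff_fst).add (contDiff_const.mul contDiff_snd)).add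
      contDiff_const))
  have e1 := funext (E1_dx_aff a b p c e q hf)
  have e2 := funext (E1_dy_aff a b p c e q hf)
  have fx := smooth_dx hf
  have fy := smooth_dy hf
  have gx : ContDiff ℝ (⊤ : ℕ∞) (fun z : Pl => dx f (a * z.1 + b * z.2 + p, c * z.1 + e * z.2 + q)) :=
    fx.comp hm
  have gy : ContDiff ℝ (⊤ : ℕ∞) (fun z : Pl => dy f (a * z.1 + b * z.2 + p, c * z.1 + e * z.2 + q)) :=
    fy.comp hm
  unfold GF.lap
  rw [e1, e2]
  rw [dx_add (f := fun z : Pl => a * dx f (a * z.1 + b * z.2 + p, c * z.1 + e * z.2 + q))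
      (g := fun z : Pl => c * dy f (a * z.1 + b * z.2 + p, c * z.1 + e * z.2 + q))
      (contDiff_const.mul gx) (contDiff_const.mul gy),
    dy_add (f := fun z : Pl => b * dx f (a * z.1 + b * z.2 + p, c * z.1 + e * z.2 + q))
      (g := fun z : Pl => e * dy f (a * z.1 + b * z.2 + p, c * z.1 + e * z.2 + q))
      (contDiff_const.mul gx) (contDiff_const.mul gy),
    dx_smul a gx, dx_smul c gy, dy_smul b gx, dy_smul e gy,
    E1_dx_aff a b p c e q fx, E1_dx_aff a b p c e q fy, E1_dy_aff a b p c e q fx,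
    E1_dy_aff a b p c e q fy, dx_dy_comm hf]
  linear_combination (dx (dx f) (a * z.1 + b * z.2 + p, c * z.1 + e * z.2 + q)) * h1 +
    (dy (dy f) (a * z.1 + b * z.2 + p, c * z.1 + e * z.2 + q)) * h2 +
    2 * (dy (dx f) (a * z.1 + b * z.2 + p, c * z.1 + e * z.2 + q)) * h3

private lemma E1_of {d : Pl} {s : ℝ} (a b p c e q : ℝ)
    (he : ∀ z : Pl, refl d s z = (a * z.1 + b * z.2 + p, c * z.1 + e * z.2 + q))
    (h1 : a * a + b * b = 1) (h2 : c * c + e * e = 1)
    (h3 : a * c + b * e = 0) {f : Pl → ℝ} (hf : ContDiff ℝ (⊤ : ℕ∞) f) (z : Pl) :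
    lap (rf d s f) z = rf d s (lap f) z := by
  have h4 : rf d s f = fun z : Pl => f (a * z.1 + b * z.2 + p, c * z.1 + e * z.2 + q) :=
    funext fun z => congrArg f (he z)
  rw [h4]
  change _ = lap f (refl d s z)
  rw [he]
  exact E1_lap_aff a b p c e q h1 h2 h3 hf z

/-- case by case: chain rule (`fderiv_comp` for the affine map `refl d s`) -/
theorem lap_rf {d : Pl} (hd : Dir d) (s : ℝ) {f : Pl → ℝ} (hf : ContDiff ℝ (⊤ : ℕ∞) f) :
    lap (rf d s f) = rf d s (lap f) := by
  funext z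
  rcases hd with rfl | rfl | rfl | rfl | rfl | rfl | rfl | rfl
  · exact E1_of (-1) 0 (2 * s) 0 1 0 (fun z => by apply Prod.ext <;> simp only [ell, refl] <;> ring)
      (by norm_num) (by norm_num) (by norm_num) hf z
  · exact E1_of (-1) 0 (-2 * s) 0 1 0 (fun z => by apply Prod.ext <;> simp only [ell, refl] <;> ring)
      (by norm_num) (by norm_num) (by norm_num) hf z
  · exact E1_of 1 0 0 0 (-1) (2 * s) (fun z => by apply Prod.ext <;> simp only [ell, refl] <;> ring)
      (by norm_num) (by norm_num) (by norm_num) hf z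
  · exact E1_of 1 0 0 0 (-1) (-2 * s) (fun z => by apply Prod.ext <;> simp only [ell, refl] <;> ring)
      (by norm_num) (by norm_num) (by norm_num) hf z
  · exact E1_of 0 (-1) s (-1) 0 s (fun z => by apply Prod.ext <;> simp only [ell, refl] <;> ring)
      (by norm_num) (by norm_num) (by norm_num) hf z
  · exact E1_of 0 (-1) (-s) (-1) 0 (-s) (fun z => by apply Prod.ext <;> simp only [ell, refl] <;> ring)
      (by norm_num) (by norm_num) (by norm_num) hf z
  · exact E1_of 0 1 s 1 0 (-s) (fun z => by apply Prod.ext <;> simp only [ell, refl] <;> ring)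
      (by norm_num) (by norm_num) (by norm_num) hf z
  · exact E1_of 0 1 (-s) 1 0 s (fun z => by apply Prod.ext <;> simp only [ell, refl] <;> ring)
      (by norm_num) (by norm_num) (by norm_num) hf z


lemma rf_rf {d : Pl} (hd : Dir d) (s : ℝ) (f : Pl → ℝ) : rf d s (rf d s f) = f := by
  funext z
  unfold rf
  rw [refl_refl hd]

/-- `int_rf` -/
lemma Ne.rf {d : Pl} (hd : Dir d) (s : ℝ) {f : Pl → ℝ} (hf : Ne f) : Ne (rf d s f) :=
  ⟨hf.toCc.rf hd s, (int_rf f hd s).trans hf.zero⟩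

lemma ne_sub_rf {d : Pl} (hd : Dir d) (s : ℝ) {f : Pl → ℝ} (hf : Cc f) : Ne (fun z => f z - rf d s f z) := by
  refine ⟨hf.sub (hf.rf hd s), ?_⟩
  rw [integral_sub hf.integrable (hf.rf hd s).integrable, int_rf f hd s, sub_self]

/-- `energy2 F F = 2 (energy2 f f - energy2 f (rf f))` for `F = f - rf f`: bilinearity, symmetry, `energy2_rf`, `rf_rf` -/
theorem energy_odd {d : Pl} (hd : Dir d) {f : Pl → ℝ} (hf : Cc f) :
    energy2 (fun z => f z - rf d 0 f z) (fun z => f z - rf d 0 f z) = 2 * (energy2 f f - energy2 f (rf d 0 f)) := by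
  have hg : Cc (rf d 0 f) := hf.rf hd 0
  have hn : Cc (fun z => (-1 : ℝ) * rf d 0 f z) := hg.smul (-1)
  have hF : Cc (fun z => f z + (-1 : ℝ) * rf d 0 f z) := hf.add hn
  have e1 : (fun z => f z - rf d 0 f z) = fun z => f z + (-1 : ℝ) * rf d 0 f z := by
    funext z
    ring
  rw [e1, energy2_add_left hf hn hF, energy2_smul_left, energy2_add_right hf hn hf,
    energy2_add_right hf hn hg, energy2_smul_right, energy2_smul_right, energy2_rf hd 0 f f,
    energy2_symm hg hf]
  ring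

/-- for `u`, `v` in the open half plane, `energy2 (lap u) (lap (rf v)) = -∫ u lap (rf v) = 0` (`energy2_lap_left`, disjoint supports: `tsupport_lap`, `tsupport_rf`, `ell_refl`) -/
theorem energy_cross {d : Pl} (hd : Dir d) {u v : Pl → ℝ} (hu : Cc u) (hv : Cc v)
    (hus : tsupport u ⊆ {z | 0 < ell d z}) (hvs : tsupport v ⊆ {z | 0 < ell d z}) :
    energy2 (lap u) (lap (rf d 0 v)) = 0 := by
  rw [energy2_lap_left hu (hv.rf hd 0).lap]
  have h1 : ∀ z : Pl, u z * lap (rf d 0 v) z = 0 := by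
    intro z
    by_contra hne
    have h2 : u z ≠ 0 := fun h => hne (by rw [h, zero_mul])
    have h3 : lap (rf d 0 v) z ≠ 0 := fun h => hne (by rw [h, mul_zero])
    have h4 : 0 < ell d z := hus (subset_tsupport u h2)
    have h5 : z ∈ tsupport (rf d 0 v) := tsupport_lap _ (subset_tsupport (lap (rf d 0 v)) h3)
    have h6 : 0 < ell d (refl d 0 z) := hvs (tsupport_rf v hd 0 h5)
    rw [ell_refl hd] at h6
    linarith
  rw [integral_congr_ae (Eventually.of_forall h1), integral_zero, neg_zero]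

end GF
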