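import Pool.Agent.Helper34.GH.E1

/-!
GH (half planes), E2.  Approximation of odd functions by functions supported off the line.
-/

open MeasureTheory Filter Topology

namespace GF

/-- one-dimensional cutoff: smooth, `0` for `t ≤ 1`, `1` for `t ≥ 2`, values in `[0, 1]`, bounded derivative (`Real.smoothTransition (t - 1)`) -/
theorem exists_step : ∃ (k : ℝ → ℝ) (B : ℝ), ContDiff ℝ (⊤ : ℕ∞) k ∧ 0 ≤ B ∧ (∀ t, 0 ≤ k t ∧ k t ≤ 1) ∧
    (∀ t, t ≤ 1 → k t = 0) ∧ (∀ t, 2 ≤ t → k t = 1) ∧ ∀ t, |deriv k t| ≤ B := by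
  have hk : ContDiff ℝ (⊤ : ℕ∞) (fun t : ℝ => Real.smoothTransition (t - 1)) :=
    Real.smoothTransition.contDiff.comp (contDiff_id.sub contDiff_const)
  have h0 : ∀ t : ℝ, t ≤ 1 → Real.smoothTransition (t - 1) = 0 := fun t ht =>
    Real.smoothTransition.zero_of_nonpos (by linarith)
  have h1 : ∀ t : ℝ, 2 ≤ t → Real.smoothTransition (t - 1) = 1 := fun t ht =>
    Real.smoothTransition.one_of_one_le (by linarith)
  have hc : Continuous (deriv fun t : ℝ => Real.smoothTransition (t - 1)) :=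
    hk.continuous_deriv (by simp)
  obtain ⟨B, hB⟩ := (isCompact_Icc (a := (0 : ℝ)) (b := 3)).exists_bound_of_continuousOn
    hc.continuousOn
  have hB0 : 0 ≤ B := (norm_nonneg _).trans (hB 0 (by norm_num))
  refine ⟨fun t => Real.smoothTransition (t - 1), B, hk, hB0, fun t =>
    ⟨Real.smoothTransition.nonneg _, Real.smoothTransition.le_one _⟩, h0, h1, fun t => ?_⟩
  by_cases ht : t ∈ Set.Icc (0 : ℝ) 3
  · exact hB t ht
  · have hd : deriv (fun t : ℝ => Real.smoothTransition (t - 1)) t = 0 := by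
      rcases lt_or_ge t 0 with h | h
      · have he : (fun t : ℝ => Real.smoothTransition (t - 1)) =ᶠ[𝓝 t] fun _ => 0 := by
          filter_upwards [Iio_mem_nhds h] with y hy
          exact h0 y (by simp only [Set.mem_Iio] at hy; linarith)
        rw [he.deriv_eq, deriv_const]
      · have h3 : 3 < t := by
          by_contra h4
          exact ht ⟨h, not_lt.1 h4⟩
        have he : (fun t : ℝ => Real.smoothTransition (t - 1)) =ᶠ[𝓝 t] fun _ => 1 := by
          filter_upwards [Ioi_mem_nhds h3] with y hy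
          exact h1 y (by simp only [Set.mem_Ioi] at hy; linarith)
        rw [he.deriv_eq, deriv_const]
    rw [hd, abs_zero]
    exact hB0

private lemma E2_dx {k : ℝ → ℝ} (hk : ContDiff ℝ (⊤ : ℕ∞) k) (c : ℝ) (d z : Pl) :
    dx (fun z => k (c * ell d z)) z = deriv k (c * ell d z) * (c * d.1) ∧
    dy (fun z => k (c * ell d z)) z = deriv k (c * ell d z) * (c * d.2) := by
  have hs : ContDiff ℝ (⊤ : ℕ∞) (fun z : Pl => k (c * ell d z)) := by
    unfold ell
    exact hk.comp (contDiff_const.mul ((contDiff_const.mul contDiff_fst).add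
      (contDiff_const.mul contDiff_snd)))
  have hd : HasDerivAt k (deriv k (c * ell d z)) (c * ell d z) :=
    (hk.differentiable (by simp) (c * ell d z)).hasDerivAt
  constructor
  · rw [dx_eq_deriv hs]
    have h1 : HasDerivAt (fun t : ℝ => c * (d.1 * t + d.2 * z.2)) (c * d.1) z.1 := by
      have h := (((hasDerivAt_id z.1).const_mul d.1).add_const (d.2 * z.2)).const_mul c
      simpa using h
    have h2 : HasDerivAt (fun t : ℝ => k (c * (d.1 * t + d.2 * z.2)))
        (deriv k (c * ell d z) * (c * d.1)) z.1 :=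
      HasDerivAt.comp (h₂ := k) (h := fun t : ℝ => c * (d.1 * t + d.2 * z.2)) z.1 hd h1
    exact h2.deriv
  · rw [dy_eq_deriv hs]
    have h1 : HasDerivAt (fun t : ℝ => c * (d.1 * z.1 + d.2 * t)) (c * d.2) z.2 := by
      have h := (((hasDerivAt_id z.2).const_mul d.2).const_add (d.1 * z.1)).const_mul c
      simpa using h
    have h2 : HasDerivAt (fun t : ℝ => k (c * (d.1 * z.1 + d.2 * t)))
        (deriv k (c * ell d z) * (c * d.2)) z.2 :=
      HasDerivAt.comp (h₂ := k) (h := fun t : ℝ => c * (d.1 * z.1 + d.2 * t)) z.2 hd h1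
    exact h2.deriv

private lemma E2_dir {d : Pl} (hd : Dir d) : |d.1| ≤ 1 ∧ |d.2| ≤ 1 ∧ 1 ≤ d.1 ^ 2 + d.2 ^ 2 := by
  rcases hd with rfl | rfl | rfl | rfl | rfl | rfl | rfl | rfl <;> norm_num

private lemma E2_odd {d : Pl} (hd : Dir d) {g : Pl → ℝ} {C : ℝ} (hC : 0 ≤ C)
    (hl : ∀ z w : Pl, |g z - g w| ≤ C * (|z.1 - w.1| + |z.2 - w.2|))
    (ho : ∀ z, g (refl d 0 z) = -g z) (z : Pl) : |g z| ≤ 2 * C * |ell d z| := by
  obtain ⟨h1, h2, h3⟩ := E2_dir hd
  have h4 := hl z (refl d 0 z)
  rw [ho z] at h4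
  have e : g z - -g z = 2 * g z := by ring
  rw [e, abs_mul, abs_two] at h4
  have h0 : (0 : ℝ) < d.1 ^ 2 + d.2 ^ 2 := by linarith
  have h5 : ∀ t : ℝ, |t| ≤ 1 → |2 * (ell d z - 0) / (d.1 ^ 2 + d.2 ^ 2) * t| ≤ 2 * |ell d z| := by
    intro t ht
    rw [sub_zero, abs_mul, abs_div, abs_of_pos h0, abs_mul, abs_two]
    have h6 : 2 * |ell d z| / (d.1 ^ 2 + d.2 ^ 2) ≤ 2 * |ell d z| := div_le_self (by positivity) h3
    calc 2 * |ell d z| / (d.1 ^ 2 + d.2 ^ 2) * |t| ≤ 2 * |ell d z| * 1 := by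
          exact mul_le_mul h6 ht (abs_nonneg _) (by positivity)
      _ = 2 * |ell d z| := by ring
  have h7 : |z.1 - (refl d 0 z).1| ≤ 2 * |ell d z| := by
    have e1 : z.1 - (refl d 0 z).1 = 2 * (ell d z - 0) / (d.1 ^ 2 + d.2 ^ 2) * d.1 := by
      simp only [refl]
      ring
    rw [e1]
    exact h5 _ h1
  have h8 : |z.2 - (refl d 0 z).2| ≤ 2 * |ell d z| := by
    have e1 : z.2 - (refl d 0 z).2 = 2 * (ell d z - 0) / (d.1 ^ 2 + d.2 ^ 2) * d.2 := by
      simp only [refl]
      ring
    rw [e1]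
    exact h5 _ h2
  have h9 : C * (|z.1 - (refl d 0 z).1| + |z.2 - (refl d 0 z).2|) ≤
      C * (2 * |ell d z| + 2 * |ell d z|) := mul_le_mul_of_nonneg_left (add_le_add h7 h8) hC
  linarith

/-
Let `k` be the step, `τ > 0`, `kτ z = k (ell d z / τ)`, `u = g * kτ` (`Cc`, supported in `{τ ≤ ell d z}`).  As `g` is odd, `rf u z = g (refl z) k (-ell d z / τ) = - g z k (-ell d z / τ)`, so
`u - rf u = g (kτ + kτ ∘ refl)` and `w = g - (u - rf u) = g (1 - k (ell/τ) - k (-ell/τ))` vanishes for `|ell d z| ≥ 2 τ`.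
`energy2 (lap w) (lap w) = ∫ (dx w)² + (dy w)²` (`energy2_lap_lap`).  `|dx w| ≤ |dx g| + |g| |d.1| 2 B / τ` and `|g z| ≤ C |ell d z| ≤ 2 C τ` on `{|ell d z| ≤ 2 τ}` (`g z = (g z - g (refl z)) / 2`, `Cc.lip`,
`z - refl z = 2 ell d z / |d|² d`), so `|dx w|, |dy w| ≤ C'` with `C'` independent of `τ ≤ 1`; the integrand vanishes off `{|ell d z| ≤ 2 τ} ∩ tsupport g`, which has measure `O(τ)` (`vol_strip`,
`Cc.box`; `int_abs_le_of_supp`).  Choose `τ` small.
-/
theorem cut_odd {d : Pl} (hd : Dir d) {g : Pl → ℝ} (hg : Cc g) (ho : ∀ z, g (refl d 0 z) = -g z) {ε : ℝ} (hε : 0 < ε) :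
    ∃ u : Pl → ℝ, Cc u ∧ tsupport u ⊆ {z | 0 < ell d z} ∧
      energy2 (lap (fun z => g z - (u z - rf d 0 u z))) (lap (fun z => g z - (u z - rf d 0 u z))) < ε := by
  obtain ⟨k, B, hk, hB, hk01, hk0, hk1, hkB⟩ := exists_step
  obtain ⟨hd1, hd2, -⟩ := E2_dir hd
  obtain ⟨C, hC, hl⟩ := hg.lip
  obtain ⟨A1, hA1, hA1'⟩ := hg.dx.bdd
  obtain ⟨A2, hA2, hA2'⟩ := hg.dy.bdd
  obtain ⟨R, hR, hRs⟩ := hg.box
  have hgz := E2_odd hd hC hl ho
  set A : ℝ := 8 * C * B + A1 + A2 with hAdef
  have hA0 : 0 ≤ A := by positivity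
  set τ : ℝ := min 1 (ε / (24 * A ^ 2 * R + 1)) with hτdef
  have hden : (0 : ℝ) < 24 * A ^ 2 * R + 1 := by positivity
  have hτ : 0 < τ := lt_min one_pos (div_pos hε hden)
  have hτε : τ * (24 * A ^ 2 * R + 1) ≤ ε := by
    have h := min_le_right (1 : ℝ) (ε / (24 * A ^ 2 * R + 1))
    exact (le_div_iff₀ hden).1 h
  -- smoothness
  have hks : ∀ c : ℝ, ContDiff ℝ (⊤ : ℕ∞) (fun z : Pl => k (c * ell d z)) := by
    intro c
    unfold ell
    exact hk.comp (contDiff_const.mul ((contDiff_const.mul contDiff_fst).add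
      (contDiff_const.mul contDiff_snd)))
  have hellc : Continuous (fun z : Pl => ell d z) := by
    unfold ell
    fun_prop
  set u : Pl → ℝ := fun z => g z * k (τ⁻¹ * ell d z) with hu
  set h : Pl → ℝ := fun z => 1 - k (τ⁻¹ * ell d z) - k (-τ⁻¹ * ell d z) with hh
  have hhs : ContDiff ℝ (⊤ : ℕ∞) h := (contDiff_const.sub (hks τ⁻¹)).sub (hks (-τ⁻¹))
  have huc : Cc u := hg.mul (hks τ⁻¹)
  have ew : (fun z => g z - (u z - rf d 0 u z)) = fun z => g z * h z := by
    funext z
    simp only [hu, hh, rf]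
    rw [ho z, ell_refl hd]
    have e1 : τ⁻¹ * (2 * 0 - ell d z) = -τ⁻¹ * ell d z := by ring
    rw [e1]
    ring
  have hwc : Cc (fun z => g z * h z) := hg.mul hhs
  refine ⟨u, huc, ?_, ?_⟩
  · have h1 : tsupport u ⊆ {z | τ ≤ ell d z} := by
      apply closure_minimal
      · intro z hz
        have h2 : k (τ⁻¹ * ell d z) ≠ 0 := right_ne_zero_of_mul hz
        by_contra h3
        have h4 : ell d z ≤ τ := (not_le.1 h3).le
        apply h2
        apply hk0
        rw [inv_mul_le_iff₀ hτ]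
        linarith
      · exact isClosed_le continuous_const hellc
    intro z hz
    exact hτ.trans_le (h1 hz)
  · rw [ew, energy2_lap_lap hwc hwc]
    -- support of the product
    have hws : ∀ z, z ∈ tsupport (fun z => g z * h z) → |ell d z| ≤ 2 * τ ∧ z ∈ tsupport g := by
      intro z hz
      have h1 : tsupport (fun z => g z * h z) ⊆ {z | |ell d z| ≤ 2 * τ} ∩ tsupport g := by
        apply closure_minimal
        · intro y hy
          have h2 : g y ≠ 0 := left_ne_zero_of_mul hy
          have h3 : h y ≠ 0 := right_ne_zero_of_mul hy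
          refine ⟨?_, subset_tsupport g h2⟩
          by_contra h4
          apply h3
          have h4' : 2 * τ < |ell d y| := not_le.1 h4
          rw [hh]
          simp only
          rcases lt_abs.1 h4' with h5 | h5
          · rw [hk1 (τ⁻¹ * ell d y) (by rw [le_inv_mul_iff₀ hτ]; linarith),
              hk0 (-τ⁻¹ * ell d y) (by
                have h6 : 0 < τ⁻¹ * ell d y := by
                  have : 0 < ell d y := by linarith
                  positivity
                linarith)]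
            ring
          · have h7 : 2 ≤ τ⁻¹ * (-ell d y) := by rw [le_inv_mul_iff₀ hτ]; linarith
            rw [hk1 (-τ⁻¹ * ell d y) (by linarith), hk0 (τ⁻¹ * ell d y) (by linarith)]
            ring
        · exact (isClosed_le hellc.abs continuous_const).inter (isClosed_tsupport g)
      exact h1 hz
    -- derivatives
    have hh1 : ∀ z, |h z| ≤ 1 := by
      intro z
      have a1 := hk01 (τ⁻¹ * ell d z)
      have a2 := hk01 (-τ⁻¹ * ell d z)
      rw [hh]
      simp only
      rw [abs_le]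
      constructor <;> linarith [a1.1, a1.2, a2.1, a2.2]
    have hder : ∀ z, |dx h z| ≤ 2 * B / τ ∧ |dy h z| ≤ 2 * B / τ := by
      intro z
      have e0 : h = fun z => ((fun z => (1 : ℝ) + (-1) * k (τ⁻¹ * ell d z)) z) +
          (-1) * (k (-τ⁻¹ * ell d z)) := by
        funext y
        rw [hh]
        ring
      have s1 : ContDiff ℝ (⊤ : ℕ∞) (fun z : Pl => (-1 : ℝ) * k (τ⁻¹ * ell d z)) :=
        contDiff_const.mul (hks _)
      have s2 : ContDiff ℝ (⊤ : ℕ∞) (fun z : Pl => (-1 : ℝ) * k (-τ⁻¹ * ell d z)) :=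
        contDiff_const.mul (hks _)
      have s3 : ContDiff ℝ (⊤ : ℕ∞) (fun z : Pl => (1 : ℝ) + (-1) * k (τ⁻¹ * ell d z)) :=
        contDiff_const.add s1
      have c1 : dx (fun _ : Pl => (1 : ℝ)) z = 0 := by
        unfold dx
        simp
      have c2 : dy (fun _ : Pl => (1 : ℝ)) z = 0 := by
        unfold dy
        simp
      have key : ∀ t : ℝ, |t| ≤ 1 →
          |0 + -1 * (deriv k (τ⁻¹ * ell d z) * (τ⁻¹ * t)) +
            -1 * (deriv k (-τ⁻¹ * ell d z) * (-τ⁻¹ * t))| ≤ 2 * B / τ := by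
        intro t ht
        have b1 := hkB (τ⁻¹ * ell d z)
        have b2 := hkB (-τ⁻¹ * ell d z)
        have e1 : 0 + -1 * (deriv k (τ⁻¹ * ell d z) * (τ⁻¹ * t)) +
            -1 * (deriv k (-τ⁻¹ * ell d z) * (-τ⁻¹ * t)) =
            (deriv k (-τ⁻¹ * ell d z) - deriv k (τ⁻¹ * ell d z)) * (τ⁻¹ * t) := by ring
        rw [e1, abs_mul, abs_mul, abs_of_pos (inv_pos.2 hτ)]
        have b3 : |deriv k (-τ⁻¹ * ell d z) - deriv k (τ⁻¹ * ell d z)| ≤ 2 * B := by
          have := abs_sub (deriv k (-τ⁻¹ * ell d z)) (deriv k (τ⁻¹ * ell d z))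
          linarith
        have b4 : τ⁻¹ * |t| ≤ τ⁻¹ := by
          have := mul_le_mul_of_nonneg_left ht (inv_pos.2 hτ).le
          linarith
        calc |deriv k (-τ⁻¹ * ell d z) - deriv k (τ⁻¹ * ell d z)| * (τ⁻¹ * |t|)
            ≤ 2 * B * τ⁻¹ := mul_le_mul b3 b4 (by positivity) (by positivity)
          _ = 2 * B / τ := by rw [div_eq_mul_inv]
      constructor
      · rw [e0, dx_add s3 s2, dx_smul (-1) (hks (-τ⁻¹)), dx_add contDiff_const s1,
          dx_smul (-1) (hks τ⁻¹), (E2_dx hk τ⁻¹ d z).1, (E2_dx hk (-τ⁻¹) d z).1, c1]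
        exact key _ hd1
      · rw [e0, dy_add s3 s2, dy_smul (-1) (hks (-τ⁻¹)), dy_add contDiff_const s1,
          dy_smul (-1) (hks τ⁻¹), (E2_dx hk τ⁻¹ d z).2, (E2_dx hk (-τ⁻¹) d z).2, c2]
        exact key _ hd2
    have hb : ∀ (z : Pl) (q a : ℝ), |ell d z| ≤ 2 * τ → |q| ≤ 2 * B / τ → |a| ≤ A1 + A2 →
        |g z * q + h z * a| ≤ A := by
      intro z q a h1 h2 h3
      have h4 : |g z * q| ≤ 8 * C * B := by
        rw [abs_mul]
        have h5 : |g z| ≤ 4 * C * τ := by
          have h6 := mul_le_mul_of_nonneg_left h1 (show 0 ≤ 2 * C by positivity)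
          have h7 := hgz z
          linarith
        calc |g z| * |q| ≤ (4 * C * τ) * (2 * B / τ) :=
              mul_le_mul h5 h2 (abs_nonneg _) (by positivity)
          _ = 8 * C * B := by
              field_simp
              ring
      have h5 : |h z * a| ≤ A1 + A2 := by
        rw [abs_mul]
        have h6 := mul_le_mul (hh1 z) h3 (abs_nonneg _) zero_le_one
        linarith
      have h6 := abs_add_le (g z * q) (h z * a)
      rw [hAdef]
      linarith
    have hdx : ∀ z, |dx (fun z => g z * h z) z| ≤ A := by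
      intro z
      by_cases hz : dx (fun z => g z * h z) z = 0
      · rw [hz, abs_zero]
        exact hA0
      · have h1 := hws z (tsupport_dx _ (subset_tsupport _ hz))
        rw [dx_mul hg.smooth hhs]
        exact hb z _ _ h1.1 (hder z).1 ((hA1' z).trans (by linarith))
    have hdy : ∀ z, |dy (fun z => g z * h z) z| ≤ A := by
      intro z
      by_cases hz : dy (fun z => g z * h z) z = 0
      · rw [hz, abs_zero]
        exact hA0
      · have h1 := hws z (tsupport_dy _ (subset_tsupport _ hz))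
        rw [dy_mul hg.smooth hhs]
        exact hb z _ _ h1.1 (hder z).2 ((hA2' z).trans (by linarith))
    have hfin := int_abs_le_of_supp
      (f := fun z => dx (fun z => g z * h z) z * dx (fun z => g z * h z) z +
        dy (fun z => g z * h z) z * dy (fun z => g z * h z) z)
      ({z : Pl | |ell d z - 0| < 3 * τ} ∩ {z : Pl | |z.1| ≤ R ∧ |z.2| ≤ R}) (2 * A ^ 2)
      (4 * R * (3 * τ)) (by positivity) (by positivity) (by
        intro z
        have p1 := abs_le.1 (hdx z)
        have p2 := abs_le.1 (hdy z)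
        have q1 : dx (fun z => g z * h z) z * dx (fun z => g z * h z) z ≤ A ^ 2 := by nlinarith
        have q2 : dy (fun z => g z * h z) z * dy (fun z => g z * h z) z ≤ A ^ 2 := by nlinarith
        rw [abs_of_nonneg (add_nonneg (mul_self_nonneg _) (mul_self_nonneg _))]
        linarith) (by
        intro z hz
        have h1 : z ∈ tsupport (fun z => g z * h z) := by
          by_cases hz1 : dx (fun z => g z * h z) z = 0
          · have hz2 : dy (fun z => g z * h z) z ≠ 0 := by
              intro h2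
              apply hz
              simp only [hz1, h2, mul_zero, add_zero]
            exact tsupport_dy _ (subset_tsupport _ hz2)
          · exact tsupport_dx _ (subset_tsupport _ hz1)
        obtain ⟨h2, h3⟩ := hws z h1
        have h4 := hRs h3
        refine ⟨?_, h4.1.le, h4.2.le⟩
        show |ell d z - 0| < 3 * τ
        rw [sub_zero]
        linarith) (vol_strip hd 0 (3 * τ) R (by positivity) hR.le)
    have hle : ∫ z, (dx (fun z => g z * h z) z * dx (fun z => g z * h z) z +
        dy (fun z => g z * h z) z * dy (fun z => g z * h z) z) ≤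
        ∫ z, |dx (fun z => g z * h z) z * dx (fun z => g z * h z) z +
          dy (fun z => g z * h z) z * dy (fun z => g z * h z) z| :=
      (le_abs_self _).trans (abs_integral_le_integral_abs)
    have hlast : 2 * A ^ 2 * (4 * R * (3 * τ)) < ε := by nlinarith
    exact (hle.trans hfin).trans_lt hlast

end GF
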