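import Pool.Agent.Helper34.GH.D1
import Pool.Agent.Helper97.EN.KerA

/-!
GH (half planes), G1.  The Dirichlet Green function of a half plane.
-/

open MeasureTheory

namespace GF.Lat

/-- Green function of `-Δ` on the half plane `0 < ell d z` with zero boundary values -/
noncomputable def gHd (d : Pl) (x y : Pl) : ℝ :=
  1 / (2 * Real.pi) * (Real.log (Real.sqrt ((x.1 - (refl d 0 y).1) ^ 2 + (x.2 - (refl d 0 y).2) ^ 2)) -
    Real.log (Real.sqrt ((x.1 - y.1) ^ 2 + (x.2 - y.2) ^ 2)))

theorem hcov_green {d : Pl} (hd : Dir d) {f g : Pl → ℝ} (hf : Cc f) (hg : Cc g) :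
    hcov d f g = ∫ x : Pl, ∫ y : Pl, f x * gHd d x y * g y := by
  have hr : Cc (rf d 0 g) := hg.rf hd 0
  have hc := hf.smooth.continuous
  have hgc := hg.smooth.continuous
  have hrc := hr.smooth.continuous
  have i1 := EN.ker_int hc hf.supp hgc hg.supp
  have i2 := EN.ker_int hc hf.supp hrc hr.supp
  have j1 : Integrable (fun x : Pl => ∫ y : Pl, f x * g y * EN.Phi (x - y)) := by
    rw [Measure.volume_eq_prod] at i1
    exact i1.integral_prod_left
  have j2 : Integrable (fun x : Pl => ∫ y : Pl, f x * rf d 0 g y * EN.Phi (x - y)) := by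
    rw [Measure.volume_eq_prod] at i2
    exact i2.integral_prod_left
  have k1 : energy2 f g = ∫ x : Pl, ∫ y : Pl, f x * g y * EN.Phi (x - y) := rfl
  have k2 : energy2 f (rf d 0 g) = ∫ x : Pl, ∫ y : Pl, f x * rf d 0 g y * EN.Phi (x - y) := rfl
  unfold hcov
  rw [k1, k2, ← integral_sub j1 j2]
  refine integral_congr_ae (Filter.Eventually.of_forall fun x => ?_)
  show (∫ y : Pl, f x * g y * EN.Phi (x - y)) - (∫ y : Pl, f x * rf d 0 g y * EN.Phi (x - y)) =
    ∫ y : Pl, f x * gHd d x y * g y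
  have hmp := refl_mp hd 0
  have hemb := (reflHomeo hd 0).measurableEmbedding
  have l2 : (∫ y : Pl, f x * rf d 0 g y * EN.Phi (x - y)) =
      ∫ y : Pl, f x * g y * EN.Phi (x - refl d 0 y) := by
    rw [← hmp.integral_comp hemb (fun y => f x * g y * EN.Phi (x - refl d 0 y))]
    simp only [GF.refl_refl hd]
    rfl
  have m1 : Integrable (fun y : Pl => f x * g y * EN.Phi (x - y)) := by
    have := (EN.ker_int1 hgc hg.supp x).const_mul (f x)
    refine this.congr (Filter.Eventually.of_forall fun y => ?_)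
    show f x * (g y * EN.Phi (x - y)) = _
    ring
  have m2 : Integrable (fun y : Pl => f x * g y * EN.Phi (x - refl d 0 y)) := by
    have h1 := (EN.ker_int1 hrc hr.supp x).const_mul (f x)
    have h2 := (hmp.integrable_comp_emb hemb).2 h1
    refine h2.congr (Filter.Eventually.of_forall fun y => ?_)
    show f x * (g (refl d 0 (refl d 0 y)) * EN.Phi (x - refl d 0 y)) = _
    rw [GF.refl_refl hd]
    ring
  rw [l2, ← integral_sub m1 m2]
  refine integral_congr_ae (Filter.Eventually.of_forall fun y => ?_)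
  show f x * g y * EN.Phi (x - y) - f x * g y * EN.Phi (x - refl d 0 y) = f x * gHd d x y * g y
  have p1 : EN.Phi (x - refl d 0 y) = -(1 / (2 * Real.pi)) *
      Real.log (Real.sqrt ((x.1 - (refl d 0 y).1) ^ 2 + (x.2 - (refl d 0 y).2) ^ 2)) := rfl
  have p2 : EN.Phi (x - y) = -(1 / (2 * Real.pi)) *
      Real.log (Real.sqrt ((x.1 - y.1) ^ 2 + (x.2 - y.2) ^ 2)) := rfl
  rw [p1, p2]
  unfold gHd
  ring

end GF.Lat
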